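import Pool.Agent.H13.SF.Lim

/-!
Approximations by finite groups.
-/

set_option autoImplicit false
set_option linter.unusedSectionVars false

open Filter Topology

noncomputable section

namespace Pool.Agent.H13.SF

open Pool.Agent.H21R2 (IsSofic)

/-! ### reindexing -/

theorem finrank_K_congr {W X Y : Type} [Fintype X] [Fintype Y] {m n : ℕ} (e : X ≃ Y)
    (ρ : W → X → X) (ρ' : W → Y → Y) (h : ∀ w x, ρ' w (e x) = e (ρ w x))
    (A : Matrix (Fin m) (Fin n) (W →₀ ℤ)) :
    Module.finrank ℝ (K ρ A) = Module.finrank ℝ (K ρ' A) := by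
  let L : (Y × Fin m → ℝ) ≃ₗ[ℝ] (X × Fin m → ℝ) :=
    LinearEquiv.funCongrLeft ℝ ℝ (e.prodCongr (Equiv.refl (Fin m)))
  have hL : ∀ v p, L v p = v (e p.1, p.2) := fun _ _ => rfl
  have h1 : K ρ A = (K ρ' A).map (L : (Y × Fin m → ℝ) →ₗ[ℝ] (X × Fin m → ℝ)) := by
    ext v
    constructor
    · intro hv
      refine ⟨L.symm v, ?_, L.apply_symm_apply v⟩
      intro y j
      have h2 := hv (e.symm y) j
      have h3 : ∀ w i, L.symm v (ρ' w y, i) = v (ρ w (e.symm y), i) := by
        intro w i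
        have h4 := hL (L.symm v) (ρ w (e.symm y), i)
        rw [L.apply_symm_apply] at h4
        rw [h4]
        show L.symm v (ρ' w y, i) = L.symm v (e (ρ w (e.symm y)), i)
        rw [← h, e.apply_symm_apply]
      simp only [h3]
      exact h2
    · rintro ⟨u, hu, rfl⟩
      intro x j
      have h2 := hu (e x) j
      simp only [h] at h2
      exact h2
  rw [h1]
  exact LinearEquiv.finrank_map_eq L (K ρ' A)

/-! ### the regular representation of a finite group -/

section reg
variable {k : ℕ} {Q : Type} [Group Q] [Finite Q]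

/-- left multiplications as permutations of `Fin |Q|` -/
def lm (Q : Type) [Group Q] [Finite Q] : Q →* Equiv.Perm (Fin (Nat.card Q)) where
  toFun g := (Finite.equivFin Q).permCongr (Equiv.mulLeft g)
  map_one' := by
    ext a
    simp [Equiv.permCongr_apply]
  map_mul' g h := by
    ext a
    simp [Equiv.permCongr_apply]

theorem lm_apply (g x : Q) : lm Q g (Finite.equivFin Q x) = Finite.equivFin Q (g * x) := by
  show (Finite.equivFin Q).permCongr (Equiv.mulLeft g) (Finite.equivFin Q x) = _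
  rw [Equiv.permCongr_apply, Equiv.symm_apply_apply]
  rfl

/-- the regular permutations of a tuple -/
def regp (q : Fin k → Q) : Fin k → Equiv.Perm (Fin (Nat.card Q)) := fun x => lm Q (q x)

theorem act_regp (q : Fin k → Q) (w : FreeGroup (Fin k)) :
    act (regp q) w = lm Q (FreeGroup.lift q w) := by
  have h : (FreeGroup.lift (regp q) : FreeGroup (Fin k) →* _) =
      (lm Q).comp (FreeGroup.lift q) := by
    ext x
    simp [regp]
  exact DFunLike.congr_fun h w

theorem mv_regp_one (q : Fin k → Q) (w : FreeGroup (Fin k)) (h : FreeGroup.lift q w = 1) :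
    mv (regp q) w = 0 := by
  unfold mv
  have e : {a | act (regp q) w a ≠ a} = ∅ := by
    ext a
    simp [act_regp, h]
  rw [e, Set.ncard_empty]
  simp

theorem mv_regp_ne (q : Fin k → Q) (w : FreeGroup (Fin k)) (h : FreeGroup.lift q w ≠ 1) :
    mv (regp q) w = 1 := by
  unfold mv
  have e : {a | act (regp q) w a ≠ a} = Set.univ := by
    ext a
    simp only [Set.mem_ofPred_eq, Set.mem_univ, iff_true]
    obtain ⟨x, rfl⟩ := (Finite.equivFin Q).surjective a
    rw [act_regp, lm_apply]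
    intro h1
    exact h (mul_eq_right.1 ((Finite.equivFin Q).injective h1))
  rw [e, Set.ncard_univ, Nat.card_eq_fintype_card, Fintype.card_fin, div_self]
  exact_mod_cast Nat.card_pos.ne'

/-- no torsion among the short words -/
def GoodQ (j : ℕ) (q : Fin k → Q) : Prop :=
  j ≤ Nat.card Q ∧ ∀ (w : FreeGroup (Fin k)) (p : ℕ), 0 < p → w.norm ≤ j → (w ^ p).norm ≤ j →
    FreeGroup.lift q (w ^ p) = 1 → FreeGroup.lift q w = 1

theorem mv_regp_le (q : Fin k → Q) (w : FreeGroup (Fin k)) (j : ℕ) (hj : 1 ≤ j) :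
    mv (regp q) w ≤ 1 / ((j : ℝ) + 1) ↔ FreeGroup.lift q w = 1 := by
  have h1 : (1 : ℝ) ≤ j := by exact_mod_cast hj
  have h2 : 1 / ((j : ℝ) + 1) < 1 := by
    rw [div_lt_one (by linarith)]
    linarith
  constructor
  · intro h
    by_contra hne
    rw [mv_regp_ne q w hne] at h
    linarith
  · intro h
    rw [mv_regp_one q w h]
    positivity

theorem atf_regp {j : ℕ} {q : Fin k → Q} (h : GoodQ j q) : ATF j (regp q) := by
  refine ⟨h.1, ?_, ?_⟩
  · intro w _
    by_cases hw : FreeGroup.lift q w = 1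
    · left
      rw [mv_regp_one q w hw]
      positivity
    · right
      rw [mv_regp_ne q w hw]
      have : 0 ≤ 1 / ((j : ℝ) + 1) := by positivity
      linarith
  · intro w p hp hw hwp h1
    rcases Nat.eq_zero_or_pos j with hj | hj
    · subst hj
      have := mv_le_one (regp q) w
      simpa using this
    · rw [mv_regp_le q _ j hj] at h1 ⊢
      exact h.2 w p hp hw hwp h1

theorem finrank_regp [Fintype Q] {m n : ℕ} (q : Fin k → Q)
    (A : Matrix (Fin m) (Fin n) (FreeGroup (Fin k) →₀ ℤ)) :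
    Module.finrank ℝ (K (fun w x => act (regp q) w x) A) =
      Module.finrank ℝ (K (fun w (x : Q) => FreeGroup.lift q w * x) A) := by
  refine (finrank_K_congr (Finite.equivFin Q) _ _ (fun w x => ?_) A).symm
  rw [act_regp, lm_apply]

end reg

/-! ### classes of finite groups -/

/-- a class of finite groups closed under products -/
structure QClass (𝒬 : (Q : Type) → [Group Q] → Prop) : Prop where
  fin : ∀ (Q : Type) [Group Q], 𝒬 Q → Finite Q
  prod : ∀ (Q Q' : Type) [Group Q] [Group Q'], 𝒬 Q → 𝒬 Q' → 𝒬 (Q × Q')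

/-- locally embeddable -/
def LE (𝒬 : (Q : Type) → [Group Q] → Prop) (G : Type) [Group G] : Prop :=
  ∀ A : Finset G, ∃ (Q : Type) (_ : Group Q), 𝒬 Q ∧ ∃ φ : G → Q, Set.InjOn φ A ∧
    ∀ a ∈ A, ∀ b ∈ A, φ (a * b) = φ a * φ b

variable {𝒬 : (Q : Type) → [Group Q] → Prop}

theorem LE.sub {G H : Type} [Group G] [Group H] (f : G →* H) (hf : Function.Injective f)
    (h : LE 𝒬 H) : LE 𝒬 G := by
  classical
  intro A
  obtain ⟨Q, _, hQ, φ, h1, h2⟩ := h (A.image f)
  refine ⟨Q, inferInstance, hQ, φ ∘ f, ?_, ?_⟩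
  · intro a ha b hb hab
    exact hf (h1 (Finset.mem_coe.2 (Finset.mem_image_of_mem f ha))
      (Finset.mem_coe.2 (Finset.mem_image_of_mem f hb)) hab)
  · intro a ha b hb
    show φ (f (a * b)) = _
    rw [map_mul]
    exact h2 _ (Finset.mem_image_of_mem f ha) _ (Finset.mem_image_of_mem f hb)

theorem LE.prod (h𝒬 : QClass 𝒬) {G H : Type} [Group G] [Group H] (hG : LE 𝒬 G) (hH : LE 𝒬 H) :
    LE 𝒬 (G × H) := by
  classical
  intro A
  obtain ⟨Q, _, hQ, φ, h1, h2⟩ := hG (A.image Prod.fst)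
  obtain ⟨Q', _, hQ', ψ, h1', h2'⟩ := hH (A.image Prod.snd)
  refine ⟨Q × Q', inferInstance, h𝒬.prod _ _ hQ hQ', fun p => (φ p.1, ψ p.2), ?_, ?_⟩
  · intro a ha b hb hab
    have e := Prod.ext_iff.1 hab
    exact Prod.ext (h1 (Finset.mem_coe.2 (Finset.mem_image_of_mem _ ha))
      (Finset.mem_coe.2 (Finset.mem_image_of_mem _ hb)) e.1)
      (h1' (Finset.mem_coe.2 (Finset.mem_image_of_mem _ ha))
      (Finset.mem_coe.2 (Finset.mem_image_of_mem _ hb)) e.2)
  · intro a ha b hb
    exact Prod.ext (h2 _ (Finset.mem_image_of_mem _ ha) _ (Finset.mem_image_of_mem _ hb))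
      (h2' _ (Finset.mem_image_of_mem _ ha) _ (Finset.mem_image_of_mem _ hb))

/-- a group which is residually in the class embeds locally -/
theorem LE.of_residually (h𝒬 : QClass 𝒬) {G : Type} [Group G]
    (h0 : ∃ (Q : Type) (_ : Group Q), 𝒬 Q)
    (h : ∀ g : G, g ≠ 1 → ∃ (Q : Type) (_ : Group Q), 𝒬 Q ∧ ∃ φ : G →* Q, φ g ≠ 1) :
    LE 𝒬 G := by
  classical
  -- finitely many elements can be separated from one
  have key : ∀ S : Finset G, (∀ g ∈ S, g ≠ 1) → ∃ (Q : Type) (_ : Group Q), 𝒬 Q ∧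
      ∃ φ : G →* Q, ∀ g ∈ S, φ g ≠ 1 := by
    intro S
    induction S using Finset.induction_on with
    | empty =>
      intro _
      obtain ⟨Q, _, hQ⟩ := h0
      exact ⟨Q, inferInstance, hQ, 1, by simp⟩
    | insert g S hg ih =>
      intro hS
      obtain ⟨Q, _, hQ, φ, hφ⟩ := ih fun g hg => hS g (Finset.mem_insert_of_mem hg)
      obtain ⟨Q', _, hQ', ψ, hψ⟩ := h g (hS g (Finset.mem_insert_self _ _))
      refine ⟨Q × Q', inferInstance, h𝒬.prod _ _ hQ hQ', φ.prod ψ, ?_⟩
      intro x hx hx1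
      have e := Prod.ext_iff.1 hx1
      rcases Finset.mem_insert.1 hx with rfl | hx
      · exact hψ e.2
      · exact hφ x hx e.1
  intro A
  obtain ⟨Q, _, hQ, φ, hφ⟩ := key (((A ×ˢ A).image fun p => p.1⁻¹ * p.2).erase 1)
    fun g hg => Finset.ne_of_mem_erase hg
  refine ⟨Q, inferInstance, hQ, φ, ?_, fun a _ b _ => map_mul φ a b⟩
  intro a ha b hb hab
  by_contra hne
  have h1 : a⁻¹ * b ≠ 1 := fun h2 => hne (inv_mul_eq_one.1 h2)
  refine hφ (a⁻¹ * b) (Finset.mem_erase.2 ⟨h1, Finset.mem_image.2 ⟨(a, b),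
    Finset.mem_product.2 ⟨ha, hb⟩, rfl⟩⟩) ?_
  rw [map_mul, map_inv, hab, inv_mul_cancel]

/-! ### from groups to finite groups -/

/-- a sequence of finite groups for an infinite group which embeds locally -/
theorem le_seq (h𝒬 : QClass 𝒬) {k : ℕ} {E : Type} [Group E] [Infinite E] (hE : LE 𝒬 E)
    (htf : ∀ g : E, ∀ n : ℕ, 0 < n → g ^ n = 1 → g = 1)
    (π : FreeGroup (Fin k) →* E) (hπ : Function.Surjective π) :
    ∃ (Q : ℕ → Type) (_ : ∀ i, Group (Q i)) (hQ : ∀ i, 𝒬 (Q i)) (q : ∀ i, Fin k → Q i),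
      (∀ j, ∀ᶠ i in atTop, haveI := h𝒬.fin (Q i) (hQ i); GoodQ j (q i)) ∧
      ∀ (m n : ℕ) (A : Matrix (Fin m) (Fin n) (FreeGroup (Fin k) →₀ ℤ)),
        Tendsto (fun i => haveI := h𝒬.fin (Q i) (hQ i);
          (Module.finrank ℝ (K (fun w x => act (regp (q i)) w x) A) : ℝ) / Nat.card (Q i)) atTop
          (𝓝 (Pool.Agent.W656.VA.kerDim (cpl (push π A)))) := by
  classical
  have hc0 : Countable (FreeGroup (Fin k)) := FreeGroup.toWord_injective.countable
  have hc : Countable E := hπ.countable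
  obtain ⟨e, he⟩ := exists_surjective_nat E
  let A : ℕ → Finset E := fun i => (Finset.range i).image e
  have hA : ∀ g : E, ∀ᶠ i in atTop, g ∈ A i := by
    intro g
    obtain ⟨n, rfl⟩ := he g
    filter_upwards [eventually_gt_atTop n] with i hi
    exact Finset.mem_image_of_mem e (Finset.mem_range.2 hi)
  choose Q iQ hQ φ hφ1 hφ2 using fun i => hE (A i)
  have hfin : ∀ i, Finite (Q i) := fun i => h𝒬.fin (Q i) (hQ i)
  have hmul : ∀ a b : E, ∀ᶠ i in atTop, φ i (a * b) = φ i a * φ i b := by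
    intro a b
    filter_upwards [hA a, hA b] with i ha hb
    exact hφ2 i a ha b hb
  have hinj : ∀ a b : E, a ≠ b → ∀ᶠ i in atTop, φ i a ≠ φ i b := by
    intro a b hab
    filter_upwards [hA a, hA b] with i ha hb h
    exact hab (hφ1 i ha hb h)
  have hone : ∀ᶠ i in atTop, φ i 1 = 1 := by
    filter_upwards [hmul 1 1] with i h
    rw [mul_one] at h
    exact (mul_eq_left.1 h.symm)
  have hinv : ∀ a : E, ∀ᶠ i in atTop, φ i a⁻¹ = (φ i a)⁻¹ := by
    intro a
    filter_upwards [hmul a⁻¹ a, hone] with i h1 h2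
    rw [inv_mul_cancel, h2] at h1
    exact eq_inv_of_mul_eq_one_left h1.symm
  have hne : ∀ a : E, a ≠ 1 → ∀ᶠ i in atTop, φ i a ≠ 1 := by
    intro a ha
    filter_upwards [hinj a 1 ha, hone] with i h1 h2
    rwa [h2] at h1
  let q : ∀ i, Fin k → Q i := fun i x => φ i (π (FreeGroup.of x))
  have hword : ∀ w : FreeGroup (Fin k), ∀ᶠ i in atTop, FreeGroup.lift (q i) w = φ i (π w) := by
    intro w
    induction w using FreeGroup.induction_on with
    | C1 =>
      filter_upwards [hone] with i h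
      rw [map_one, map_one, h]
    | of x => exact Eventually.of_forall fun i => FreeGroup.lift_apply_of
    | inv_of x _ =>
      filter_upwards [hinv (π (FreeGroup.of x))] with i h
      rw [map_inv, map_inv, FreeGroup.lift_apply_of, h]
    | mul u v hu hv =>
      filter_upwards [hu, hv, hmul (π u) (π v)] with i h1 h2 h3
      rw [map_mul, map_mul, h1, h2, h3]
  have hcard : Tendsto (fun i => Nat.card (Q i)) atTop atTop := by
    rw [tendsto_atTop]
    intro N
    obtain ⟨T, hT⟩ := Infinite.exists_subset_card_eq E N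
    have h1 : ∀ᶠ i in atTop, ∀ t ∈ T, t ∈ A i := by
      rw [Filter.eventually_all_finset]
      exact fun t _ => hA t
    filter_upwards [h1] with i hi
    have := hfin i
    rw [← hT]
    have h2 : (T.image (φ i)).card = T.card := Finset.card_image_of_injOn
      ((hφ1 i).mono fun t ht => hi t ht)
    rw [← h2, ← Set.ncard_coe_finset]
    exact Set.ncard_le_card _
  refine ⟨Q, iQ, hQ, q, ?_, ?_⟩
  · intro j
    have h1 : ∀ᶠ i in atTop, ∀ w ∈ (finite_ball k j).toFinset,
        (FreeGroup.lift (q i) w = 1 ↔ π w = 1) := by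
      rw [Filter.eventually_all_finset]
      intro w _
      by_cases hw : π w = 1
      · filter_upwards [hword w, hone] with i h1 h2
        rw [h1, hw, h2]
        simp
      · filter_upwards [hword w, hne _ hw] with i h1 h2
        rw [h1]
        exact ⟨fun h => absurd h h2, fun h => absurd h hw⟩
    filter_upwards [h1, hcard.eventually_ge_atTop j] with i hi hci
    refine ⟨hci, fun w p hp hw hwp h2 => ?_⟩
    rw [hi _ ((finite_ball k j).mem_toFinset.2 hwp), map_pow] at h2
    rw [hi _ ((finite_ball k j).mem_toFinset.2 hw)]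
    exact htf _ p hp h2
  · intro m n B
    let σ : ∀ i, E → Equiv.Perm (Fin (Nat.card (Q i))) := fun i g => lm (Q i) (φ i g)
    have hev : ∀ P : ∀ i, Fin (Nat.card (Q i)) → Prop, (∀ᶠ i in atTop, ∀ a, P i a) →
        Alm (fun i => Nat.card (Q i)) P := by
      intro P hP
      refine tendsto_const_nhds.congr' ?_
      filter_upwards [hP] with i hi
      have e : {a | ¬ P i a} = (∅ : Set (Fin (Nat.card (Q i)))) := by
        ext a
        simp [hi a]
      rw [e, Set.ncard_empty]
      simp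
    have h1 : AMul σ := by
      intro s t
      apply hev
      filter_upwards [hmul s t] with i h a
      show lm (Q i) (φ i (s * t)) a = lm (Q i) (φ i s) (lm (Q i) (φ i t) a)
      rw [h, map_mul]
      rfl
    have h2 : AFree σ := by
      intro s hs
      apply hev
      filter_upwards [hne s hs] with i h a
      obtain ⟨x, rfl⟩ := (Finite.equivFin (Q i)).surjective a
      show lm (Q i) (φ i s) _ ≠ _
      rw [lm_apply]
      intro h3
      exact h (mul_eq_right.1 ((Finite.equivFin (Q i)).injective h3))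
    have h3 : ∀ w, Alm (fun i => Nat.card (Q i)) fun i a => act (regp (q i)) w a =
        σ i (π w) a := by
      intro w
      apply hev
      filter_upwards [hword w] with i h a
      rw [act_regp, h]
    exact nul_lim hcard h1 h2 π (fun i => regp (q i)) h3 B

/-! ### from finite groups to groups -/

theorem le_limit (h𝒬 : QClass 𝒬) {k : ℕ} (Q : ℕ → Type) [∀ i, Group (Q i)]
    (hQ : ∀ i, 𝒬 (Q i)) (q : ∀ i, Fin k → Q i)
    (hq : ∀ i, haveI := h𝒬.fin (Q i) (hQ i); GoodQ i (q i)) :
    ∃ (E : Type) (_ : Group E) (π : FreeGroup (Fin k) →* E) (φ : ℕ → ℕ), StrictMono φ ∧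
      (∀ g : E, ∀ n : ℕ, 0 < n → g ^ n = 1 → g = 1) ∧ LE 𝒬 E ∧
      ∀ (m n : ℕ) (A : Matrix (Fin m) (Fin n) (FreeGroup (Fin k) →₀ ℤ)),
        Tendsto (fun i => haveI := h𝒬.fin (Q (φ i)) (hQ (φ i));
          (Module.finrank ℝ (K (fun w x => act (regp (q (φ i))) w x) A) : ℝ) /
            Nat.card (Q (φ i))) atTop
          (𝓝 (Pool.Agent.W656.VA.kerDim (cpl (push π A)))) := by
  classical
  have hfin : ∀ i, Finite (Q i) := fun i => h𝒬.fin (Q i) (hQ i)
  obtain ⟨φ, bl, hφ, hb⟩ := exists_sub (d := fun i => Nat.card (Q i)) (fun i => regp (q i))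
  obtain ⟨R, _, hR, htf, -, hl⟩ := limit_of (fun i => regp (q (φ i))) φ hφ.tendsto_atTop
    (fun i => atf_regp (hq (φ i))) bl hb
  have hrel : ∀ w, ∀ᶠ i in atTop, (FreeGroup.lift (q (φ i)) w = 1 ↔ w ∈ R) := by
    intro w
    filter_upwards [hb w, hφ.tendsto_atTop.eventually_ge_atTop 1] with i h1 h2
    rw [hR, ← h1, decide_eq_true_iff]
    exact (mv_regp_le (q (φ i)) w (φ i) h2).symm
  refine ⟨FreeGroup (Fin k) ⧸ R, inferInstance, QuotientGroup.mk' R, φ, hφ, htf, ?_, hl⟩
  intro A
  have hout : ∀ g : FreeGroup (Fin k) ⧸ R, QuotientGroup.mk' R (Quotient.out g) = g := fun g =>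
    Quotient.out_eq' g
  -- the words
  have h1 : ∀ᶠ i in atTop, ∀ p ∈ A ×ˢ A,
      (FreeGroup.lift (q (φ i)) ((Quotient.out p.1)⁻¹ * Quotient.out p.2) = 1 ↔
        (Quotient.out p.1)⁻¹ * Quotient.out p.2 ∈ R) := by
    rw [Filter.eventually_all_finset]
    exact fun p _ => hrel _
  have h2 : ∀ᶠ i in atTop, ∀ p ∈ A ×ˢ A,
      (FreeGroup.lift (q (φ i)) ((Quotient.out (p.1 * p.2))⁻¹ *
        (Quotient.out p.1 * Quotient.out p.2)) = 1 ↔
        (Quotient.out (p.1 * p.2))⁻¹ * (Quotient.out p.1 * Quotient.out p.2) ∈ R) := by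
    rw [Filter.eventually_all_finset]
    exact fun p _ => hrel _
  obtain ⟨i, h3, h4⟩ := (h1.and h2).exists
  refine ⟨Q (φ i), inferInstance, hQ _, fun g => FreeGroup.lift (q (φ i)) (Quotient.out g),
    ?_, ?_⟩
  · intro a ha b hb' hab
    have h5 := (h3 (a, b) (Finset.mem_product.2 ⟨ha, hb'⟩)).1 (by
      show FreeGroup.lift (q (φ i)) ((Quotient.out a)⁻¹ * Quotient.out b) = 1
      rw [map_mul, map_inv]
      have h6 : FreeGroup.lift (q (φ i)) (Quotient.out a) =
        FreeGroup.lift (q (φ i)) (Quotient.out b) := hab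
      rw [h6, inv_mul_cancel])
    have h7 : QuotientGroup.mk' R ((Quotient.out a)⁻¹ * Quotient.out b) = 1 :=
      (QuotientGroup.eq_one_iff _).2 h5
    rw [map_mul, map_inv, hout, hout] at h7
    exact (inv_mul_eq_one.1 h7)
  · intro a ha b hb'
    have h5 : (Quotient.out (a * b))⁻¹ * (Quotient.out a * Quotient.out b) ∈ R := by
      apply (QuotientGroup.eq_one_iff _).1
      show QuotientGroup.mk' R _ = 1
      rw [map_mul, map_inv, map_mul, hout, hout, hout, inv_mul_cancel]
    have h6 := (h4 (a, b) (Finset.mem_product.2 ⟨ha, hb'⟩)).2 h5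
    rw [map_mul, map_inv, map_mul] at h6
    exact (inv_mul_eq_one.1 h6)

end Pool.Agent.H13.SF
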