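import Mathlib

/-!
Properties of almost all points of a sequence of finite sets; kernels of real matrices which differ
in few rows; balls of free groups.
-/

set_option autoImplicit false

open Filter Topology

namespace Pool.Agent.H13.SF

section alm
variable {d : ℕ → ℕ}

/-- `P` holds for almost all points -/
def Alm (d : ℕ → ℕ) (P : ∀ i, Fin (d i) → Prop) : Prop :=
  Tendsto (fun i => ({a | ¬ P i a}.ncard : ℝ) / d i) atTop (𝓝 0)

theorem Alm.mono {P Q : ∀ i, Fin (d i) → Prop} (h : Alm d P) (hPQ : ∀ i a, P i a → Q i a) :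
    Alm d Q := by
  refine squeeze_zero (fun _ => by positivity) (fun i => ?_) h
  have h0 : {a | ¬ Q i a} ⊆ {a | ¬ P i a} := fun a (ha : ¬ Q i a) (hp : P i a) => ha (hPQ i a hp)
  have h1 : ({a | ¬ Q i a}.ncard : ℝ) ≤ ({a | ¬ P i a}.ncard : ℝ) := by
    exact_mod_cast Set.ncard_le_ncard h0 (Set.toFinite _)
  exact div_le_div_of_nonneg_right h1 (Nat.cast_nonneg _)

theorem Alm.all {P : ∀ i, Fin (d i) → Prop} (h : ∀ i a, P i a) : Alm d P := by
  have e : ∀ i, {a | ¬ P i a} = (∅ : Set (Fin (d i))) := by
    intro i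
    ext a
    simp [h i a]
  unfold Alm
  simp only [e, Set.ncard_empty, Nat.cast_zero, zero_div]
  exact tendsto_const_nhds

theorem Alm.and {P Q : ∀ i, Fin (d i) → Prop} (h : Alm d P) (h' : Alm d Q) :
    Alm d fun i a => P i a ∧ Q i a := by
  have h1 := h.add h'
  rw [add_zero] at h1
  refine squeeze_zero (fun _ => by positivity) (fun i => ?_) h1
  rw [← add_div]
  refine div_le_div_of_nonneg_right ?_ (Nat.cast_nonneg _)
  have h2 : {a | ¬ (P i a ∧ Q i a)} = {a | ¬ P i a} ∪ {a | ¬ Q i a} := by
    ext a
    simp only [Set.mem_ofPred_eq, Set.mem_union]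
    tauto
  rw [h2]
  exact_mod_cast Set.ncard_union_le _ _

theorem Alm.perm {P : ∀ i, Fin (d i) → Prop} (h : Alm d P) (τ : ∀ i, Equiv.Perm (Fin (d i))) :
    Alm d fun i a => P i (τ i a) := by
  refine h.congr fun i => ?_
  congr 2
  have e : {a | ¬ P i a} = (τ i) '' {a | ¬ P i (τ i a)} := by
    ext a
    simp only [Set.mem_ofPred_eq, Set.mem_image]
    constructor
    · intro ha
      exact ⟨(τ i)⁻¹ a, by simpa using ha, by simp⟩
    · rintro ⟨b, hb, rfl⟩
      exact hb
  rw [e, Set.ncard_image_of_injective _ (τ i).injective]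

theorem Alm.finset {ι : Type} (s : Finset ι) {P : ι → ∀ i, Fin (d i) → Prop}
    (h : ∀ x ∈ s, Alm d (P x)) : Alm d fun i a => ∀ x ∈ s, P x i a := by
  classical
  induction s using Finset.induction_on with
  | empty => exact Alm.all (by simp)
  | insert x s hx ih =>
    have h1 := (h x (Finset.mem_insert_self _ _)).and
      (ih fun y hy => h y (Finset.mem_insert_of_mem hy))
    refine h1.mono fun i a hPa y hy => ?_
    rcases Finset.mem_insert.1 hy with rfl | hy
    · exact hPa.1
    · exact hPa.2 y hy

/-- a bound for the number of the points with a property -/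
theorem Alm.eventually {P : ∀ i, Fin (d i) → Prop} (h : Alm d P) {ε : ℝ} (hε : 0 < ε) :
    ∀ᶠ i in atTop, ({a | ¬ P i a}.ncard : ℝ) / d i < ε :=
  Filter.Tendsto.eventually h (gt_mem_nhds hε)

/-- the complement -/
theorem compl_div {n : ℕ} (hn : 0 < n) (P : Fin n → Prop) :
    ({a | ¬ P a}.ncard : ℝ) / n = 1 - ({a | P a}.ncard : ℝ) / n := by
  have h1 := Set.ncard_add_ncard_compl {a | P a}
  rw [Nat.card_eq_fintype_card, Fintype.card_fin] at h1
  have h2 : {a | ¬ P a} = {a | P a}ᶜ := rfl
  have h3 : ({a | P a}.ncard : ℝ) + ({a | ¬ P a}.ncard : ℝ) = n := by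
    rw [h2]; exact_mod_cast h1
  have hn' : (0 : ℝ) < n := by exact_mod_cast hn
  field_simp
  linarith

theorem Alm.of_lim {P : ∀ i, Fin (d i) → Prop} (hd : Tendsto d atTop atTop)
    (h : Tendsto (fun i => ({a | P i a}.ncard : ℝ) / d i) atTop (𝓝 1)) : Alm d P := by
  have h1 := h.const_sub 1
  rw [sub_self] at h1
  refine h1.congr' ?_
  filter_upwards [hd.eventually_gt_atTop 0] with i hi
  exact (compl_div hi (P i)).symm

theorem Alm.lim {P : ∀ i, Fin (d i) → Prop} (hd : Tendsto d atTop atTop) (h : Alm d P) :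
    Tendsto (fun i => ({a | P i a}.ncard : ℝ) / d i) atTop (𝓝 1) := by
  have h1 := h.const_sub 1
  rw [sub_zero] at h1
  refine h1.congr' ?_
  filter_upwards [hd.eventually_gt_atTop 0] with i hi
  rw [compl_div hi (P i)]
  ring

end alm

/-! ### kernels of matrices which differ in few rows -/

theorem ker_le {R C : Type} [Fintype R] [Fintype C] [DecidableEq C] (M M' : Matrix R C ℝ)
    (B : Finset R) (h : ∀ r, r ∉ B → M r = M' r) :
    Module.finrank ℝ (LinearMap.ker M'.mulVecLin) ≤
      Module.finrank ℝ (LinearMap.ker M.mulVecLin) + B.card := by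
  classical
  let f : LinearMap.ker M'.mulVecLin →ₗ[ℝ] (B → ℝ) :=
    { toFun := fun v r => (M.mulVec v.1) r
      map_add' := by
        intro v w
        funext r
        simp [Matrix.mulVec_add]
      map_smul' := by
        intro t v
        funext r
        simp [Matrix.mulVec_smul] }
  have h1 := LinearMap.finrank_range_add_finrank_ker f
  have h2 : Module.finrank ℝ (LinearMap.range f) ≤ B.card := by
    refine (Submodule.finrank_le _).trans ?_
    rw [Module.finrank_fintype_fun_eq_card, Fintype.card_coe]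
  have h3 : Module.finrank ℝ (LinearMap.ker f) ≤ Module.finrank ℝ (LinearMap.ker M.mulVecLin) := by
    let g : LinearMap.ker f →ₗ[ℝ] LinearMap.ker M.mulVecLin :=
      { toFun := fun v => ⟨v.1.1, by
          rw [LinearMap.mem_ker, Matrix.mulVecLin_apply]
          funext r
          by_cases hr : r ∈ B
          · exact congrFun (LinearMap.mem_ker.1 v.2) ⟨r, hr⟩
          · have h4 := congrFun (LinearMap.mem_ker.1 v.1.2) r
            rw [Matrix.mulVecLin_apply] at h4
            rw [Matrix.mulVec, h r hr]
            exact h4⟩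
        map_add' := fun _ _ => rfl
        map_smul' := fun _ _ => rfl }
    refine LinearMap.finrank_le_finrank_of_injective (f := g) ?_
    intro v w hvw
    apply Subtype.ext
    apply Subtype.ext
    exact congrArg (fun z => z.1) hvw
  omega

/-! ### balls of free groups -/

theorem finite_ball (k N : ℕ) : {w : FreeGroup (Fin k) | w.norm ≤ N}.Finite := by
  have h1 : {l : List (Fin k × Bool) | l.length ≤ N}.Finite := List.finite_length_le _ _
  refine (h1.preimage FreeGroup.toWord_injective.injOn).subset ?_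
  intro w hw
  exact hw

end Pool.Agent.H13.SF
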