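import Pool.Agent.H13.AA.Fol
import Pool.Agent.H13.L.Rb67.E8helper54.SH.Closure
import Pool.Agent.H13.L.Rf72.W626.Wreath

/-!
Closure properties of the class of sofic groups.
-/

set_option autoImplicit false

namespace Pool.Agent.H13.SF

open Pool.Agent.H21R2 (IsSofic hamm)
open Pool.Agent.H13.AA (Amenable amenable_comm)

theorem folner_comm (Q : Type) [CommGroup Q] : Pool.Agent.W626.Folner Q := by
  classical
  intro S hS ε hε
  obtain ⟨F, hF, hc⟩ := amenable_comm Q (insert 1 hS.toFinset) ε hε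
  refine ⟨F, F.finite_toSet, hF, fun s hs => ?_⟩
  rw [Pool.Agent.H13.AA.set_eq, Set.ncard_coe_finset] at hc
  rw [Set.ncard_coe_finset]
  set P : Finset Q := (F ×ˢ insert 1 hS.toFinset).image fun p => p.1 * p.2 with hP
  have h1 : F ⊆ P := by
    intro x hx
    exact Finset.mem_image.2 ⟨(x, 1), Finset.mem_product.2 ⟨hx, Finset.mem_insert_self _ _⟩,
      mul_one x⟩
  have h2 : ((fun x => s * x) '' (F : Set Q) \ F) ⊆ ((P \ F : Finset Q) : Set Q) := by
    rintro _ ⟨⟨x, hx, rfl⟩, hx2⟩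
    rw [Finset.mem_coe, Finset.mem_sdiff]
    refine ⟨Finset.mem_image.2 ⟨(x, s), Finset.mem_product.2 ⟨hx, ?_⟩, mul_comm x s⟩, hx2⟩
    exact Finset.mem_insert_of_mem (hS.mem_toFinset.2 hs)
  have h3 := Set.ncard_le_ncard h2 (Finset.finite_toSet _)
  rw [Set.ncard_coe_finset, Finset.card_sdiff_of_subset h1] at h3
  have h4 := Finset.card_le_card h1
  have h5 : (((fun x => s * x) '' (F : Set Q) \ F).ncard : ℝ) ≤ (P.card : ℝ) - F.card := by
    rw [← Nat.cast_sub h4]
    exact_mod_cast h3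
  linarith

theorem sofic_sub {G H : Type} [Group G] [Group H] (f : G →* H) (hf : Function.Injective f)
    (hH : IsSofic H) : IsSofic G := Pool.Agent.E8helper54.SH.isSofic_of_injective f hf hH

theorem sofic_prod {G H : Type} [Group G] [Group H] (hG : IsSofic G) (hH : IsSofic H) :
    IsSofic (G × H) := by
  apply Pool.Agent.E8helper54.SH.isSofic_of_residually.{0, 0}
  rintro ⟨a, b⟩ hg
  by_cases ha : a = 1
  · refine ⟨H, inferInstance, MonoidHom.snd G H, hH, fun hb => hg ?_⟩
    exact Prod.ext ha hb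
  · exact ⟨G, inferInstance, MonoidHom.fst G H, hG, ha⟩

theorem sofic_union {G : Type} [Group G] (h : ∀ K : Subgroup G, K.FG → IsSofic K) :
    IsSofic G := by
  classical
  intro A h1 ε hε
  set K : Subgroup G := Subgroup.closure (A : Set G) with hK
  have hAK : ∀ a ∈ A, a ∈ K := fun a ha => Subgroup.subset_closure ha
  let A' : Finset K := A.attach.image fun a => (⟨a.1, hAK a.1 a.2⟩ : K)
  have hmem : ∀ a (ha : a ∈ A), (⟨a, hAK a ha⟩ : K) ∈ A' := fun a ha =>
    Finset.mem_image.2 ⟨⟨a, ha⟩, Finset.mem_attach _ _, rfl⟩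
  obtain ⟨n, hn, φ, hφ1, hφ2, hφ3⟩ := h K ⟨A, rfl⟩ A' (hmem 1 h1) ε hε
  refine ⟨n, hn, fun g => if hg : g ∈ K then φ ⟨g, hg⟩ else 1, ?_, ?_, ?_⟩
  · simp only [K.one_mem, dif_pos]
    exact hφ1
  · intro a ha b hb hab
    have e1 : a * b ∈ K := K.mul_mem (hAK a ha) (hAK b hb)
    simp only [dif_pos (hAK a ha), dif_pos (hAK b hb), dif_pos e1]
    exact hφ2 ⟨a, hAK a ha⟩ (hmem a ha) ⟨b, hAK b hb⟩ (hmem b hb) (hmem _ hab)
  · intro a ha ha1
    simp only [dif_pos (hAK a ha)]
    exact hφ3 ⟨a, hAK a ha⟩ (hmem a ha) (fun h => ha1 (congrArg Subtype.val h))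

theorem sofic_semi {G : Type} [Group G] (hG : IsSofic G) (φ : Multiplicative ℤ →* MulAut G) :
    IsSofic (G ⋊[φ] Multiplicative ℤ) := by
  refine Pool.Agent.W626.isSofic_of_amenable_quotient (SemidirectProduct.rightHom (φ := φ))
    SemidirectProduct.rightHom_surjective (folner_comm _) ?_
  let f : (SemidirectProduct.rightHom (φ := φ)).ker →* G :=
    { toFun := fun x => x.1.left
      map_one' := rfl
      map_mul' := by
        rintro ⟨x, hx⟩ ⟨y, hy⟩
        have e1 : x.right = 1 := hx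
        show (x * y).left = x.left * y.left
        rw [SemidirectProduct.mul_left, e1, map_one]
        rfl }
  refine sofic_sub f ?_ hG
  rintro ⟨x, hx⟩ ⟨y, hy⟩ h
  have e1 : x.right = 1 := hx
  have e2 : y.right = 1 := hy
  have e3 : x.left = y.left := h
  exact Subtype.ext (SemidirectProduct.ext e3 (by rw [e1, e2]))

theorem sofic_free {G : Type} [Group G] (hG : IsSofic G) (m : ℕ) :
    IsSofic (Monoid.Coprod G (FreeGroup (Fin m))) :=
  Pool.Agent.E8helper54.SH.isSofic_coprod_free hG (Fin m)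

end Pool.Agent.H13.SF
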