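import Pool.Agent.H13.SF.Luck
import Pool.Agent.H13.L.S8.H21R2.Defs

/-!
Approximations of groups and of marked groups by tuples of permutations.
-/

set_option autoImplicit false
set_option linter.unusedSectionVars false

open Filter Topology

noncomputable section

namespace Pool.Agent.H13.SF

open Pool.Agent.H21R2 (IsSofic hamm)
open Pool.Agent.V11111.MD (Sofic)

section model
variable {Γ : Type} [Group Γ] {d : ℕ → ℕ}

/-- asymptotically multiplicative maps -/
def AMul (σ : ∀ i, Γ → Equiv.Perm (Fin (d i))) : Prop :=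
  ∀ s t, Alm d fun i a => σ i (s * t) a = σ i s (σ i t a)

/-- asymptotically free maps -/
def AFree (σ : ∀ i, Γ → Equiv.Perm (Fin (d i))) : Prop :=
  ∀ s, s ≠ 1 → Alm d fun i a => σ i s a ≠ a

variable {σ : ∀ i, Γ → Equiv.Perm (Fin (d i))}

theorem AMul.one (h : AMul σ) : Alm d fun i a => σ i 1 a = a := by
  refine (h 1 1).mono fun i a ha => ?_
  rw [mul_one] at ha
  exact (σ i 1).injective ha.symm

theorem ap_inv {n : ℕ} (α : Equiv.Perm (Fin n)) (a : Fin n) : α (α⁻¹ a) = a := by
  rw [← Equiv.Perm.mul_apply, mul_inv_cancel, Equiv.Perm.one_apply]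

theorem AMul.inv (h : AMul σ) (s : Γ) : Alm d fun i a => σ i s⁻¹ a = (σ i s)⁻¹ a := by
  have h1 := ((h s⁻¹ s).and h.one).perm fun i => (σ i s)⁻¹
  refine h1.mono fun i a ha => ?_
  obtain ⟨h2, h3⟩ := ha
  rw [inv_mul_cancel, ap_inv] at h2
  rw [← h2]
  exact h3

theorem AFree.ne (h : AMul σ) (hf : AFree σ) {s t : Γ} (hst : s ≠ t) :
    Alm d fun i a => σ i s a ≠ σ i t a := by
  have h1 : t⁻¹ * s ≠ 1 := fun hc => hst (inv_mul_eq_one.1 hc).symm
  refine ((h t⁻¹ s).and ((h t⁻¹ t).and (h.one.and (hf _ h1)))).mono fun i a ha => ?_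
  obtain ⟨h2, h3, h4, h5⟩ := ha
  intro h6
  apply h5
  rw [h2, h6, ← h3, inv_mul_cancel, h4]

/-- the structure of the library -/
def mkSofic (hd : Tendsto d atTop atTop) (h : AMul σ) (hf : AFree σ) : Sofic Γ where
  d := d
  σ := σ
  tendsto := hd
  mul _ _ := (h _ _).lim hd
  free _ _ hst := (AFree.ne h hf hst).lim hd

theorem hamm_eq {n : ℕ} (α β : Equiv.Perm (Fin n)) :
    hamm α β = ({a | ¬ α a = β a}.ncard : ℝ) / n := by
  unfold hamm
  congr 2
  rw [← Set.ncard_coe_finset]
  congr 1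
  ext a
  simp

theorem isSofic_of (hd : Tendsto d atTop atTop) (h : AMul σ) (hf : AFree σ) : IsSofic Γ := by
  classical
  intro A _ ε hε
  let φ : ∀ i, Γ → Equiv.Perm (Fin (d i)) := fun i g => if g = 1 then 1 else σ i g
  have hφ : ∀ g, Alm d fun i a => φ i g a = σ i g a := by
    intro g
    by_cases hg : g = 1
    · subst hg
      refine h.one.mono fun i a ha => ?_
      simp only [φ, if_pos]
      exact ha.symm
    · refine Alm.all fun i a => ?_
      simp only [φ, if_neg hg]
  have hmul : ∀ s t, Alm d fun i a => φ i (s * t) a = (φ i s * φ i t) a := by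
    intro s t
    refine ((hφ (s * t)).and ((h s t).and ((hφ t).and ((hφ s).perm fun i => φ i t)))).mono
      fun i a ha => ?_
    obtain ⟨h1, h2, h3, h4⟩ := ha
    rw [Equiv.Perm.mul_apply, h1, h2, h4, h3]
  have hfree : ∀ s, s ≠ 1 → Alm d fun i a => φ i s a ≠ (1 : Equiv.Perm (Fin (d i))) a := by
    intro s hs
    refine (hf s hs).mono fun i a ha => ?_
    simp only [φ, if_neg hs]
    exact ha
  have h1 : ∀ᶠ i in atTop, ∀ p ∈ A ×ˢ A, hamm (φ i (p.1 * p.2)) (φ i p.1 * φ i p.2) < ε := by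
    rw [Filter.eventually_all_finset]
    intro p _
    filter_upwards [(hmul p.1 p.2).eventually hε] with i hi
    rw [hamm_eq]
    exact hi
  have h2 : ∀ᶠ i in atTop, ∀ a ∈ A, a ≠ 1 → 1 - ε ≤ hamm (φ i a) 1 := by
    rw [Filter.eventually_all_finset]
    intro a _
    by_cases ha : a = 1
    · exact Eventually.of_forall fun i h => absurd ha h
    · filter_upwards [(hfree a ha).eventually hε, hd.eventually_gt_atTop 0] with i hi hdi _
      rw [hamm_eq]
      have h3 := compl_div hdi fun x => φ i a x ≠ (1 : Equiv.Perm (Fin (d i))) x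
      rw [h3] at hi
      have e : {x | ¬ φ i a x = (1 : Equiv.Perm (Fin (d i))) x} =
        {x | φ i a x ≠ (1 : Equiv.Perm (Fin (d i))) x} := rfl
      rw [e]
      linarith
  obtain ⟨i, h3, h4, h5⟩ := (h1.and (h2.and (hd.eventually_gt_atTop 0))).exists
  refine ⟨d i, h5, φ i, ?_, ?_, h4⟩
  · simp only [φ, if_pos]
  · intro a ha b hb _
    exact h3 (a, b) (Finset.mem_product.2 ⟨ha, hb⟩)

/-- the product with a finite set -/
def ampl {n : ℕ} (r : ℕ) (α : Equiv.Perm (Fin n)) : Equiv.Perm (Fin (n * r)) :=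
  finProdFinEquiv.permCongr (Equiv.prodCongr α (Equiv.refl (Fin r)))

theorem ampl_apply {n r : ℕ} (α : Equiv.Perm (Fin n)) (p : Fin n × Fin r) :
    ampl r α (finProdFinEquiv p) = finProdFinEquiv (α p.1, p.2) := by
  unfold ampl
  rw [Equiv.permCongr_apply, Equiv.symm_apply_apply]
  rfl

theorem ampl_count {n : ℕ} (r : ℕ) (P : Fin n → Prop) (Q : Fin (n * r) → Prop)
    (h : ∀ p, Q (finProdFinEquiv p) ↔ P p.1) :
    {a | ¬ Q a}.ncard = {a | ¬ P a}.ncard * r := by
  have e : {a | ¬ Q a} = finProdFinEquiv '' ({a | ¬ P a} ×ˢ (Set.univ : Set (Fin r))) := by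
    ext a
    constructor
    · intro ha
      refine ⟨finProdFinEquiv.symm a, ⟨?_, trivial⟩, finProdFinEquiv.apply_symm_apply a⟩
      intro hp
      apply ha
      have := (h (finProdFinEquiv.symm a)).2 hp
      rwa [finProdFinEquiv.apply_symm_apply] at this
    · rintro ⟨p, ⟨hp, _⟩, rfl⟩
      exact fun hq => hp ((h p).1 hq)
  rw [e, Set.ncard_image_of_injective _ finProdFinEquiv.injective, Set.ncard_prod,
    Set.ncard_univ, Nat.card_eq_fintype_card, Fintype.card_fin]

/-- a countable sofic group has a sequence of approximations -/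
theorem exists_model {G : Type} [Group G] [Countable G] (hG : IsSofic G) :
    ∃ (d : ℕ → ℕ) (σ : ∀ i, G → Equiv.Perm (Fin (d i))), Tendsto d atTop atTop ∧ AMul σ ∧
      AFree σ := by
  classical
  obtain ⟨e, he⟩ := exists_surjective_nat G
  let A : ℕ → Finset G := fun i => insert 1 ((Finset.range i).image e)
  have hA : ∀ g : G, ∀ᶠ i in atTop, g ∈ A i := by
    intro g
    obtain ⟨n, rfl⟩ := he g
    filter_upwards [eventually_gt_atTop n] with i hi
    exact Finset.mem_insert_of_mem (Finset.mem_image_of_mem e (Finset.mem_range.2 hi))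
  have h1 : ∀ i : ℕ, ∃ n : ℕ, 1 ≤ n ∧ ∃ φ : G → Equiv.Perm (Fin n), φ 1 = 1 ∧
      (∀ a ∈ A i, ∀ b ∈ A i, a * b ∈ A i → hamm (φ (a * b)) (φ a * φ b) < 1 / ((i : ℝ) + 1)) ∧
      ∀ a ∈ A i, a ≠ 1 → 1 - 1 / ((i : ℝ) + 1) ≤ hamm (φ a) 1 :=
    fun i => hG (A i) (Finset.mem_insert_self _ _) _ (by positivity)
  choose n hn φ hφ1 hφ2 hφ3 using h1
  refine ⟨fun i => n i * (i + 1), fun i g => ampl (i + 1) (φ i g), ?_, ?_, ?_⟩
  · refine tendsto_atTop_mono (fun i => ?_) (tendsto_id)
    have := hn i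
    show i ≤ n i * (i + 1)
    nlinarith
  · intro s t
    have hlim : Tendsto (fun i : ℕ => 1 / ((i : ℝ) + 1)) atTop (𝓝 0) :=
      tendsto_one_div_add_atTop_nhds_zero_nat
    refine squeeze_zero' (Eventually.of_forall fun _ => by positivity) ?_ hlim
    filter_upwards [hA s, hA t, hA (s * t)] with i h1 h2 h3
    have h4 := hφ2 i s h1 t h2 h3
    rw [hamm_eq] at h4
    have h5 := ampl_count (i + 1) (fun a => φ i (s * t) a = (φ i s * φ i t) a)
      (fun a => ampl (i + 1) (φ i (s * t)) a = ampl (i + 1) (φ i s) (ampl (i + 1) (φ i t) a))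
      (by
        intro p
        rw [ampl_apply, ampl_apply, ampl_apply, finProdFinEquiv.injective.eq_iff]
        simp)
    rw [h5]
    have hn0 : (0 : ℝ) < n i := by exact_mod_cast hn i
    push_cast
    rw [mul_div_mul_right _ _ (by positivity)]
    exact h4.le
  · intro s hs
    have hlim : Tendsto (fun i : ℕ => 1 / ((i : ℝ) + 1)) atTop (𝓝 0) :=
      tendsto_one_div_add_atTop_nhds_zero_nat
    refine squeeze_zero' (Eventually.of_forall fun _ => by positivity) ?_ hlim
    filter_upwards [hA s] with i h1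
    have h4 := hφ3 i s h1 hs
    rw [hamm_eq] at h4
    have h5 := ampl_count (i + 1) (fun a => φ i s a ≠ a) (fun a => ampl (i + 1) (φ i s) a ≠ a) (by
        intro p
        rw [ampl_apply, Ne, Ne, finProdFinEquiv.injective.eq_iff]
        constructor
        · intro h h'
          exact h (Prod.ext h' rfl)
        · intro h h'
          exact h (Prod.ext_iff.1 h').1)
    rw [h5]
    have hn0 : (0 : ℝ) < n i := by exact_mod_cast hn i
    have h6 := compl_div (hn i) fun a => φ i s a ≠ a
    push_cast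
    rw [mul_div_mul_right _ _ (by positivity), h6]
    have e : {a | ¬ φ i s a = (1 : Equiv.Perm (Fin (n i))) a} = {a | φ i s a ≠ a} := rfl
    rw [e] at h4
    linarith

end model

/-! ### tuples of permutations -/

section tup
variable {G : Type} [Group G] {d : ℕ → ℕ} {k m n : ℕ}

/-- the permutation of a word -/
abbrev act {N : ℕ} (τ : Fin k → Equiv.Perm (Fin N)) (w : FreeGroup (Fin k)) :
    Equiv.Perm (Fin N) := FreeGroup.lift τ w

theorem act_one {N : ℕ} (τ : Fin k → Equiv.Perm (Fin N)) (a : Fin N) : act τ 1 a = a := by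
  rw [show act τ 1 = 1 from map_one _]
  rfl

theorem act_of {N : ℕ} (τ : Fin k → Equiv.Perm (Fin N)) (x : Fin k) :
    act τ (FreeGroup.of x) = τ x := FreeGroup.lift_apply_of

theorem act_inv {N : ℕ} (τ : Fin k → Equiv.Perm (Fin N)) (w : FreeGroup (Fin k)) :
    act τ w⁻¹ = (act τ w)⁻¹ := map_inv _ _

theorem act_mul {N : ℕ} (τ : Fin k → Equiv.Perm (Fin N)) (u v : FreeGroup (Fin k)) (a : Fin N) :
    act τ (u * v) a = act τ u (act τ v a) := by
  rw [show act τ (u * v) = act τ u * act τ v from map_mul _ _ _]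
  rfl

theorem words_model {σ : ∀ i, G → Equiv.Perm (Fin (d i))} (h : AMul σ)
    (π : FreeGroup (Fin k) →* G) (w : FreeGroup (Fin k)) :
    Alm d fun i a => act (fun x => σ i (π (FreeGroup.of x))) w a = σ i (π w) a := by
  induction w using FreeGroup.induction_on with
  | C1 =>
    refine h.one.mono fun i a ha => ?_
    rw [act_one, map_one, ha]
  | of x =>
    refine Alm.all fun i a => ?_
    rw [act_of]
  | inv_of x hx =>
    refine (h.inv (π (FreeGroup.of x))).mono fun i a ha => ?_
    rw [act_inv, map_inv, act_of, ha]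
  | mul u v hu hv =>
    refine (hv.and ((hu.perm fun i => σ i (π v)).and (h (π u) (π v)))).mono fun i a ha => ?_
    obtain ⟨h1, h2, h3⟩ := ha
    rw [act_mul, map_mul, h1, h2, h3]

/-- the nullities of a matrix over the free group ring converge to the kernel dimension -/
theorem nul_lim {σ : ∀ i, G → Equiv.Perm (Fin (d i))} (hd : Tendsto d atTop atTop) (h : AMul σ)
    (hf : AFree σ) (π : FreeGroup (Fin k) → G)
    (τ : ∀ i, Fin k → Equiv.Perm (Fin (d i)))
    (hτ : ∀ w, Alm d fun i a => act (τ i) w a = σ i (π w) a)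
    (A : Matrix (Fin m) (Fin n) (FreeGroup (Fin k) →₀ ℤ)) :
    Tendsto (fun i => (Module.finrank ℝ (K (fun w x => act (τ i) w x) A) : ℝ) / d i) atTop
      (𝓝 (Pool.Agent.W656.VA.kerDim (cpl (push π A)))) := by
  have h1 := luck (mkSofic hd h hf) (push π A)
  have h2 : Alm d fun i a => ∀ w ∈ words A, act (τ i) w a = σ i (π w) a :=
    Alm.finset _ fun w _ => hτ w
  have h3 : Tendsto (fun i => (n : ℝ) * (({a | ¬ ∀ w ∈ words A, act (τ i) w a =
      σ i (π w) a}.ncard : ℝ) / d i)) atTop (𝓝 0) := by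
    have := Filter.Tendsto.const_mul (n : ℝ) h2
    rwa [mul_zero] at this
  have h4 : Tendsto (fun i => (Module.finrank ℝ (K (fun w x => act (τ i) w x) A) : ℝ) / d i -
      (Module.finrank ℝ (K (fun g x => σ i g x) (push π A)) : ℝ) / d i) atTop (𝓝 0) := by
    refine squeeze_zero_norm (fun i => ?_) h3
    obtain ⟨h5, h6⟩ := nul_near π (fun w x => act (τ i) w x) (fun g x => σ i g x) A
    rw [← sub_div, Real.norm_eq_abs, abs_div, Nat.abs_cast, mul_div_assoc']
    refine div_le_div_of_nonneg_right ?_ (Nat.cast_nonneg _)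
    rw [abs_le]
    have h5' : (Module.finrank ℝ (K (fun w x => act (τ i) w x) A) : ℝ) ≤
        Module.finrank ℝ (K (fun g x => σ i g x) (push π A)) + n *
          ({a | ¬ ∀ w ∈ words A, act (τ i) w a = σ i (π w) a}.ncard : ℝ) := by exact_mod_cast h5
    have h6' : (Module.finrank ℝ (K (fun g x => σ i g x) (push π A)) : ℝ) ≤
        Module.finrank ℝ (K (fun w x => act (τ i) w x) A) + n *
          ({a | ¬ ∀ w ∈ words A, act (τ i) w a = σ i (π w) a}.ncard : ℝ) := by exact_mod_cast h6
    constructor <;> linarith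
  have h7 := h4.add h1
  rw [zero_add] at h7
  refine h7.congr fun i => ?_
  exact sub_add_cancel _ _

end tup

end Pool.Agent.H13.SF
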