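import Pool.Agent.H13.SF.Ex

/-!
Limits of almost torsion-free tuples of permutations.
-/

set_option autoImplicit false
set_option linter.unusedSectionVars false

open Filter Topology

noncomputable section

namespace Pool.Agent.H13.SF

open Pool.Agent.H21R2 (IsSofic)

variable {k : ℕ}

/-- the proportion of the points moved by the word `w` -/
def mv {N : ℕ} (τ : Fin k → Equiv.Perm (Fin N)) (w : FreeGroup (Fin k)) : ℝ :=
  ({a | act τ w a ≠ a}.ncard : ℝ) / N

/-- almost torsion-free tuples -/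
def ATF (j : ℕ) {N : ℕ} (τ : Fin k → Equiv.Perm (Fin N)) : Prop :=
  j ≤ N ∧ (∀ w : FreeGroup (Fin k), w.norm ≤ j →
    mv τ w ≤ 1 / ((j : ℝ) + 1) ∨ 1 - 1 / ((j : ℝ) + 1) ≤ mv τ w) ∧
  ∀ (w : FreeGroup (Fin k)) (p : ℕ), 0 < p → w.norm ≤ j → (w ^ p).norm ≤ j →
    mv τ (w ^ p) ≤ 1 / ((j : ℝ) + 1) → mv τ w ≤ 1 / ((j : ℝ) + 1)

theorem mv_nonneg {N : ℕ} (τ : Fin k → Equiv.Perm (Fin N)) (w : FreeGroup (Fin k)) :
    0 ≤ mv τ w := by
  unfold mv
  positivity

theorem mv_le_one {N : ℕ} (τ : Fin k → Equiv.Perm (Fin N)) (w : FreeGroup (Fin k)) :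
    mv τ w ≤ 1 := by
  unfold mv
  rcases Nat.eq_zero_or_pos N with h | h
  · subst h
    simp
  · rw [div_le_one (by exact_mod_cast h)]
    have h1 := Set.ncard_le_card {a | act τ w a ≠ a}
    rw [Nat.card_eq_fintype_card, Fintype.card_fin] at h1
    exact_mod_cast h1

/-! ### from groups to tuples -/

theorem mv_lim_one {G : Type} [Group G] {d : ℕ → ℕ} {σ : ∀ i, G → Equiv.Perm (Fin (d i))}
    (π : FreeGroup (Fin k) → G) (τ : ∀ i, Fin k → Equiv.Perm (Fin (d i)))
    (hτ : ∀ w, Alm d fun i a => act (τ i) w a = σ i (π w) a) (h : AMul σ)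
    (w : FreeGroup (Fin k)) (hw : π w = 1) :
    Alm d fun i a => act (τ i) w a = a := by
  refine ((hτ w).and h.one).mono fun i a ha => ?_
  obtain ⟨h1, h2⟩ := ha
  rw [h1, hw, h2]

theorem mv_lim_ne {G : Type} [Group G] {d : ℕ → ℕ} {σ : ∀ i, G → Equiv.Perm (Fin (d i))}
    (π : FreeGroup (Fin k) → G) (τ : ∀ i, Fin k → Equiv.Perm (Fin (d i)))
    (hτ : ∀ w, Alm d fun i a => act (τ i) w a = σ i (π w) a) (h : AFree σ)
    (w : FreeGroup (Fin k)) (hw : π w ≠ 1) :
    Alm d fun i a => act (τ i) w a ≠ a := by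
  refine ((hτ w).and (h _ hw)).mono fun i a ha => ?_
  obtain ⟨h1, h2⟩ := ha
  rw [h1]
  exact h2

/-- approximations of torsion-free groups are almost torsion-free -/
theorem atf_eventually {G : Type} [Group G] (htf : ∀ g : G, ∀ n : ℕ, 0 < n → g ^ n = 1 → g = 1)
    {d : ℕ → ℕ} {σ : ∀ i, G → Equiv.Perm (Fin (d i))} (hd : Tendsto d atTop atTop) (h : AMul σ)
    (hf : AFree σ) (π : FreeGroup (Fin k) →* G) (τ : ∀ i, Fin k → Equiv.Perm (Fin (d i)))
    (hτ : ∀ w, Alm d fun i a => act (τ i) w a = σ i (π w) a) (j : ℕ) :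
    ∀ᶠ i in atTop, ATF j (τ i) := by
  classical
  have hj : (0 : ℝ) < 1 / ((j : ℝ) + 1) := by positivity
  set c : ℝ := 1 / ((j : ℝ) + 1) with hc
  have key : ∀ w : FreeGroup (Fin k), ∀ᶠ i in atTop, (π w = 1 → mv (τ i) w ≤ c) ∧
      (π w ≠ 1 → 1 - c < mv (τ i) w ∧ 1 / 2 < mv (τ i) w) := by
    intro w
    by_cases hw : π w = 1
    · filter_upwards [(mv_lim_one π τ hτ h w hw).eventually hj] with i hi
      exact ⟨fun _ => hi.le, fun h' => absurd hw h'⟩
    · filter_upwards [(mv_lim_ne π τ hτ hf w hw).eventually hj,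
        (mv_lim_ne π τ hτ hf w hw).eventually (show (0 : ℝ) < 1 / 2 by norm_num),
        hd.eventually_gt_atTop 0] with i h1 h2 h3
      refine ⟨fun h' => absurd h' hw, fun _ => ?_⟩
      have e := compl_div h3 fun a => act (τ i) w a ≠ a
      rw [e] at h1 h2
      change 1 - mv (τ i) w < c at h1
      change 1 - mv (τ i) w < 1 / 2 at h2
      constructor <;> linarith
  have h1 : ∀ᶠ i in atTop, ∀ w ∈ (finite_ball k j).toFinset, (π w = 1 → mv (τ i) w ≤ c) ∧
      (π w ≠ 1 → 1 - c < mv (τ i) w ∧ 1 / 2 < mv (τ i) w) := by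
    rw [Filter.eventually_all_finset]
    exact fun w _ => key w
  filter_upwards [h1, hd.eventually_ge_atTop j] with i hi hdi
  have hmem : ∀ w : FreeGroup (Fin k), w.norm ≤ j → w ∈ (finite_ball k j).toFinset := fun w hw =>
    (finite_ball k j).mem_toFinset.2 hw
  refine ⟨hdi, ?_, ?_⟩
  · intro w hw
    by_cases h2 : π w = 1
    · exact Or.inl ((hi w (hmem w hw)).1 h2)
    · exact Or.inr ((hi w (hmem w hw)).2 h2).1.le
  · intro w p hp hw hwp h3
    by_cases h2 : π w = 1
    · exact (hi w (hmem w hw)).1 h2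
    · have h4 : π (w ^ p) ≠ 1 := by
        intro h5
        rw [map_pow] at h5
        exact h2 (htf _ p hp h5)
      have h6 := ((hi _ (hmem _ hwp)).2 h4).2
      rcases Nat.eq_zero_or_pos j with hj0 | hj0
      · rw [hj0]
        have := mv_le_one (τ i) w
        simpa using this
      · have h7 : c ≤ 1 / 2 := by
          rw [hc]
          apply one_div_le_one_div_of_le (by norm_num)
          have : (1 : ℝ) ≤ j := by exact_mod_cast hj0
          linarith
        linarith

/-! ### from tuples to groups -/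

section lim
variable {d : ℕ → ℕ} (τ : ∀ i, Fin k → Equiv.Perm (Fin (d i)))

/-- the relations of the limit -/
def rel : Subgroup (FreeGroup (Fin k)) where
  carrier := {w | Alm d fun i a => act (τ i) w a = a}
  one_mem' := Alm.all fun i a => act_one _ a
  mul_mem' := by
    intro u v hu hv
    refine ((show Alm d _ from hu).and hv).mono fun i a ha => ?_
    rw [act_mul, ha.2, ha.1]
  inv_mem' := by
    intro u hu
    refine (show Alm d _ from hu).mono fun i a ha => ?_
    rw [act_inv]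
    apply (act (τ i) u).injective
    rw [ap_inv, ha]

theorem mem_rel (w : FreeGroup (Fin k)) :
    w ∈ rel τ ↔ Alm d fun i a => act (τ i) w a = a := Iff.rfl

instance : (rel τ).Normal := by
  refine ⟨fun w hw g => ?_⟩
  rw [mem_rel] at hw ⊢
  refine (hw.perm fun i => act (τ i) g⁻¹).mono fun i a ha => ?_
  rw [act_mul, act_mul, ha, ← act_mul, mul_inv_cancel, act_one]

theorem lim_group
    (hfree : ∀ w, w ∉ rel τ → Alm d fun i a => act (τ i) w a ≠ a) :
    ∃ σ : ∀ i, (FreeGroup (Fin k) ⧸ rel τ) → Equiv.Perm (Fin (d i)), AMul σ ∧ AFree σ ∧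
      ∀ w, Alm d fun i a => act (τ i) w a = σ i (QuotientGroup.mk' (rel τ) w) a := by
  have hout : ∀ w : FreeGroup (Fin k),
      (Quotient.out (QuotientGroup.mk' (rel τ) w))⁻¹ * w ∈ rel τ := by
    intro w
    rw [← QuotientGroup.eq]
    exact Quotient.out_eq' _
  have hkey : ∀ u v : FreeGroup (Fin k), u⁻¹ * v ∈ rel τ →
      Alm d fun i a => act (τ i) v a = act (τ i) u a := by
    intro u v h
    rw [mem_rel] at h
    refine h.mono fun i a ha => ?_
    rw [act_mul, act_inv] at ha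
    rw [← ap_inv (act (τ i) u) (act (τ i) v a), ha]
  refine ⟨fun i g => act (τ i) (Quotient.out g), ?_, ?_, ?_⟩
  · intro s t
    have h1 : (Quotient.out (s * t))⁻¹ * (Quotient.out s * Quotient.out t) ∈ rel τ := by
      have h2 := hout (Quotient.out s * Quotient.out t)
      have e : QuotientGroup.mk' (rel τ) (Quotient.out s * Quotient.out t) = s * t := by
        rw [map_mul]
        congr 1
        · exact Quotient.out_eq' s
        · exact Quotient.out_eq' t
      rwa [e] at h2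
    refine (hkey _ _ h1).mono fun i a ha => ?_
    rw [act_mul] at ha
    exact ha.symm
  · intro s hs
    apply hfree
    intro h
    apply hs
    have e : (QuotientGroup.mk' (rel τ) (Quotient.out s)) = s := Quotient.out_eq' s
    rw [← e]
    exact (QuotientGroup.eq_one_iff _).2 h
  · intro w
    exact hkey _ _ (hout w)

end lim

/-- **Limits of almost torsion-free tuples.** -/
theorem limit_of {d : ℕ → ℕ} (τ : ∀ i, Fin k → Equiv.Perm (Fin (d i))) (φ : ℕ → ℕ)
    (hφt : Tendsto φ atTop atTop) (hτ : ∀ i, ATF (φ i) (τ i)) (bl : FreeGroup (Fin k) → Bool)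
    (hb' : ∀ w, ∀ᶠ i in atTop, decide (mv (τ i) w ≤ 1 / ((φ i : ℝ) + 1)) = bl w) :
    ∃ R : Subgroup (FreeGroup (Fin k)), ∃ _ : R.Normal, (∀ w, w ∈ R ↔ bl w = true) ∧
      (∀ g : FreeGroup (Fin k) ⧸ R, ∀ n : ℕ, 0 < n → g ^ n = 1 → g = 1) ∧
      IsSofic (FreeGroup (Fin k) ⧸ R) ∧
      ∀ (m n : ℕ) (A : Matrix (Fin m) (Fin n) (FreeGroup (Fin k) →₀ ℤ)),
        Tendsto (fun i => (Module.finrank ℝ (K (fun w x => act (τ i) w x) A) : ℝ) / d i)
          atTop (𝓝 (Pool.Agent.W656.VA.kerDim (cpl (push (QuotientGroup.mk' R) A)))) := by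
  classical
  have hd : Tendsto d atTop atTop := tendsto_atTop_mono (fun i => (hτ i).1) hφt
  have hlim : Tendsto (fun i => 1 / ((φ i : ℝ) + 1)) atTop (𝓝 0) :=
    tendsto_one_div_add_atTop_nhds_zero_nat.comp hφt
  have htrue : ∀ w, bl w = true → Alm d fun i a => act (τ i) w a = a := by
    intro w hw
    refine squeeze_zero' (Eventually.of_forall fun _ => by positivity) ?_ hlim
    filter_upwards [hb' w] with i hi
    rw [hw] at hi
    exact of_decide_eq_true hi
  have hfalse : ∀ w, bl w = false → Alm d fun i a => act (τ i) w a ≠ a := by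
    intro w hw
    refine squeeze_zero' (Eventually.of_forall fun _ => by positivity) ?_ hlim
    filter_upwards [hb' w, hφt.eventually_ge_atTop w.norm, hd.eventually_gt_atTop 0]
      with i hi h2 h3
    rw [hw] at hi
    have h4 : ¬ mv (τ i) w ≤ 1 / ((φ i : ℝ) + 1) := of_decide_eq_false hi
    have h5 := ((hτ i).2.1 w h2).resolve_left h4
    rw [compl_div h3]
    change 1 - mv (τ i) w ≤ _
    linarith
  have hnot : ∀ w, w ∈ rel τ → bl w = true := by
    intro w hw
    by_contra hcon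
    have h1 := hfalse w (by simpa using hcon)
    rw [mem_rel] at hw
    have h2 := (hw.and h1).eventually (show (0 : ℝ) < 1 by norm_num)
    obtain ⟨i, h3, h4⟩ := (h2.and (hd.eventually_gt_atTop 0)).exists
    have e : {a | ¬ (act (τ i) w a = a ∧ act (τ i) w a ≠ a)} = Set.univ := by
      ext a
      simp
    rw [e, Set.ncard_univ, Nat.card_eq_fintype_card, Fintype.card_fin, div_self] at h3
    · exact lt_irrefl _ h3
    · exact_mod_cast h4.ne'
  obtain ⟨σ, h1, h2, h3⟩ := lim_group τ (by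
    intro w hw
    apply hfalse
    by_contra hcon
    apply hw
    rw [mem_rel]
    exact htrue w (by simpa using hcon))
  refine ⟨rel τ, inferInstance, ?_, ?_, isSofic_of hd h1 h2, ?_⟩
  · intro w
    refine ⟨hnot w, fun hw => ?_⟩
    rw [mem_rel]
    exact htrue w hw
  · intro g p hp hg
    obtain ⟨w, rfl⟩ := QuotientGroup.mk'_surjective _ g
    rw [← map_pow] at hg
    have h4 : w ^ p ∈ rel τ := (QuotientGroup.eq_one_iff _).1 hg
    refine (QuotientGroup.eq_one_iff _).2 ?_
    rw [mem_rel]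
    apply htrue
    by_contra hcon
    have hcon' : bl w = false := by simpa using hcon
    have h5 := hnot _ h4
    obtain ⟨i, h6, h7, h8, h9⟩ := ((hb' w).and ((hb' (w ^ p)).and
      ((hφt.eventually_ge_atTop w.norm).and (hφt.eventually_ge_atTop (w ^ p).norm)))).exists
    rw [hcon'] at h6
    rw [h5] at h7
    exact of_decide_eq_false h6 ((hτ i).2.2 w p hp h8 h9 (of_decide_eq_true h7))
  · intro m n A
    exact nul_lim hd h1 h2 _ τ h3 A

/-- subsequences for which every word converges -/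
theorem exists_sub {d : ℕ → ℕ} (τ : ∀ i, Fin k → Equiv.Perm (Fin (d i))) :
    ∃ (φ : ℕ → ℕ) (bl : FreeGroup (Fin k) → Bool), StrictMono φ ∧
      ∀ w, ∀ᶠ i in atTop, decide (mv (τ (φ i)) w ≤ 1 / ((φ i : ℝ) + 1)) = bl w := by
  classical
  have hcount : Countable (FreeGroup (Fin k)) := FreeGroup.toWord_injective.countable
  let b : ℕ → FreeGroup (Fin k) → Bool := fun j w => decide (mv (τ j) w ≤ 1 / ((j : ℝ) + 1))
  obtain ⟨bl, φ, hφ, hb⟩ := CompactSpace.tendsto_subseq b
  refine ⟨φ, bl, hφ, fun w => ?_⟩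
  have h1 := (tendsto_pi_nhds.1 hb) w
  rw [nhds_discrete, tendsto_pure] at h1
  exact h1

/-- the precision `j` of an approximation -/
theorem rel_eventually {G : Type} [Group G] {d : ℕ → ℕ} {σ : ∀ i, G → Equiv.Perm (Fin (d i))}
    (hd : Tendsto d atTop atTop) (h : AMul σ) (hf : AFree σ) (π : FreeGroup (Fin k) →* G)
    (τ : ∀ i, Fin k → Equiv.Perm (Fin (d i)))
    (hτ : ∀ w, Alm d fun i a => act (τ i) w a = σ i (π w) a) (j : ℕ) (hj : 1 ≤ j) :
    ∀ᶠ i in atTop, ∀ w : FreeGroup (Fin k), w.norm ≤ j →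
      (mv (τ i) w ≤ 1 / ((j : ℝ) + 1) ↔ π w = 1) := by
  classical
  have hj0 : (0 : ℝ) < 1 / ((j : ℝ) + 1) := by positivity
  have hj1 : 1 / ((j : ℝ) + 1) ≤ 1 / 2 := by
    apply one_div_le_one_div_of_le (by norm_num)
    have : (1 : ℝ) ≤ j := by exact_mod_cast hj
    linarith
  have key : ∀ w : FreeGroup (Fin k), ∀ᶠ i in atTop,
      (mv (τ i) w ≤ 1 / ((j : ℝ) + 1) ↔ π w = 1) := by
    intro w
    by_cases hw : π w = 1
    · filter_upwards [(mv_lim_one π τ hτ h w hw).eventually hj0] with i hi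
      exact ⟨fun _ => hw, fun _ => hi.le⟩
    · filter_upwards [(mv_lim_ne π τ hτ hf w hw).eventually (show (0 : ℝ) < 1 / 2 by norm_num),
        hd.eventually_gt_atTop 0] with i h2 h3
      refine ⟨fun h' => ?_, fun h' => absurd h' hw⟩
      have e := compl_div h3 fun a => act (τ i) w a ≠ a
      rw [e] at h2
      change 1 - mv (τ i) w < 1 / 2 at h2
      linarith
  have h1 : ∀ᶠ i in atTop, ∀ w ∈ (finite_ball k j).toFinset,
      (mv (τ i) w ≤ 1 / ((j : ℝ) + 1) ↔ π w = 1) := by
    rw [Filter.eventually_all_finset]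
    exact fun w _ => key w
  filter_upwards [h1] with i hi w hw
  exact hi w ((finite_ball k j).mem_toFinset.2 hw)

end Pool.Agent.H13.SF
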