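import Pool.Agent.H13.SF.Alm
import Pool.Agent.H13.L.R843.V11111.MD.VB
import Pool.Agent.H13.L.R843.V11111.MD.FD
import Pool.Agent.H13.L.S8.W656.VA8

/-!
The approximation of kernel dimensions by the nullities of the matrices on the finite sets of a
sofic approximation.
-/

set_option autoImplicit false
set_option linter.unusedSectionVars false

open Filter Topology
open scoped InnerProductSpace ENNReal

noncomputable section

namespace Pool.Agent.H13.SF

open Pool.Agent.V11111.MD (Rm Rm_mulVec Cb one_le_Cb Sofic Op HM Op_HM embZ embZ_single shift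
  shift_single nu beta beta_lim beta_ge small_upper ker_lower Sd)
open Pool.Agent.H919R3.L2 (EE dl)

section fin
variable {W X : Type} [Fintype X] {m n : ℕ}

/-- the kernel of a matrix on a finite set -/
def K (ρ : W → X → X) (A : Matrix (Fin m) (Fin n) (W →₀ ℤ)) : Submodule ℝ (X × Fin m → ℝ) where
  carrier := {v | ∀ (x : X) (j : Fin n),
    ∑ i, (A i j).sum (fun w c => (c : ℝ) * v (ρ w x, i)) = 0}
  zero_mem' := by
    intro x j
    simp
  add_mem' := by
    intro v w hv hw x j
    have h1 := hv x j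
    have h2 := hw x j
    simp only [Pi.add_apply, mul_add, Finsupp.sum_add] 
    rw [Finset.sum_add_distrib, h1, h2, add_zero]
  smul_mem' := by
    intro t v hv x j
    have h1 := hv x j
    simp only [Pi.smul_apply, smul_eq_mul]
    have e : ∀ i, (A i j).sum (fun w c => (c : ℝ) * (t * v (ρ w x, i))) =
        t * (A i j).sum (fun w c => (c : ℝ) * v (ρ w x, i)) := by
      intro i
      rw [Finsupp.sum, Finsupp.sum, Finset.mul_sum]
      refine Finset.sum_congr rfl fun w _ => ?_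
      ring
    simp only [e]
    rw [← Finset.mul_sum, h1, mul_zero]

variable [DecidableEq X]

/-- the matrix -/
def Mt (ρ : W → X → X) (A : Matrix (Fin m) (Fin n) (W →₀ ℤ)) : Matrix (X × Fin n) (X × Fin m) ℝ :=
  fun p q => (A q.2 p.2).sum fun w c => if ρ w p.1 = q.1 then (c : ℝ) else 0

theorem Mt_mulVec (ρ : W → X → X) (A : Matrix (Fin m) (Fin n) (W →₀ ℤ)) (v : X × Fin m → ℝ)
    (x : X) (j : Fin n) :
    ((Mt ρ A).mulVec v) (x, j) = ∑ i, (A i j).sum (fun w c => (c : ℝ) * v (ρ w x, i)) := by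
  rw [Matrix.mulVec, dotProduct, Fintype.sum_prod_type, Finset.sum_comm]
  refine Finset.sum_congr rfl fun i _ => ?_
  simp only [Mt, Finsupp.sum, Finset.sum_mul]
  rw [Finset.sum_comm]
  refine Finset.sum_congr rfl fun w _ => ?_
  rw [Finset.sum_eq_single (ρ w x)]
  · rw [if_pos rfl]
  · intro y _ hy
    rw [if_neg (Ne.symm hy), zero_mul]
  · intro h
    exact absurd (Finset.mem_univ _) h

theorem K_eq (ρ : W → X → X) (A : Matrix (Fin m) (Fin n) (W →₀ ℤ)) :
    K ρ A = LinearMap.ker (Mt ρ A).mulVecLin := by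
  ext v
  rw [LinearMap.mem_ker, Matrix.mulVecLin_apply]
  constructor
  · intro h
    funext ⟨x, j⟩
    rw [Mt_mulVec]
    exact h x j
  · intro h x j
    rw [← Mt_mulVec, h]
    rfl

/-- the push forward of a matrix -/
def push {W' : Type} (π : W → W') (A : Matrix (Fin m) (Fin n) (W →₀ ℤ)) :
    Matrix (Fin m) (Fin n) (W' →₀ ℤ) := fun i j => (A i j).mapDomain π

open Classical in
/-- the words of a matrix -/
def words (A : Matrix (Fin m) (Fin n) (W →₀ ℤ)) : Finset W :=
  Finset.univ.biUnion fun i => Finset.univ.biUnion fun j => (A i j).support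

theorem mem_words (A : Matrix (Fin m) (Fin n) (W →₀ ℤ)) (i : Fin m) (j : Fin n) (w : W)
    (h : w ∈ (A i j).support) : w ∈ words A := by
  classical
  unfold words
  rw [Finset.mem_biUnion]
  refine ⟨i, Finset.mem_univ _, ?_⟩
  rw [Finset.mem_biUnion]
  exact ⟨j, Finset.mem_univ _, h⟩

theorem row_eq {W' : Type} (π : W → W') (ρ : W → X → X) (ρ' : W' → X → X)
    (A : Matrix (Fin m) (Fin n) (W →₀ ℤ)) (x : X) (hx : ∀ w ∈ words A, ρ w x = ρ' (π w) x)
    (j : Fin n) : Mt ρ A (x, j) = Mt ρ' (push π A) (x, j) := by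
  funext ⟨y, i⟩
  simp only [Mt, push]
  rw [Finsupp.sum_mapDomain_index]
  · refine Finsupp.sum_congr fun w hw => ?_
    rw [hx w (mem_words A i j w hw)]
  · intro b
    simp
  · intro b c c'
    split_ifs <;> simp

theorem nul_near {W' : Type} (π : W → W') (ρ : W → X → X) (ρ' : W' → X → X)
    (A : Matrix (Fin m) (Fin n) (W →₀ ℤ)) :
    Module.finrank ℝ (K ρ A) ≤ Module.finrank ℝ (K ρ' (push π A)) +
        n * {x | ¬ ∀ w ∈ words A, ρ w x = ρ' (π w) x}.ncard ∧
      Module.finrank ℝ (K ρ' (push π A)) ≤ Module.finrank ℝ (K ρ A) +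
        n * {x | ¬ ∀ w ∈ words A, ρ w x = ρ' (π w) x}.ncard := by
  classical
  set B : Finset X := Finset.univ.filter fun x => ¬ ∀ w ∈ words A, ρ w x = ρ' (π w) x with hB
  have hBc : {x | ¬ ∀ w ∈ words A, ρ w x = ρ' (π w) x}.ncard = B.card := by
    rw [← Set.ncard_coe_finset]
    congr 1
    ext x
    simp [hB]
  have hcard : (B ×ˢ (Finset.univ : Finset (Fin n))).card = n * B.card := by
    rw [Finset.card_product, Finset.card_univ, Fintype.card_fin, mul_comm]
  have hrow : ∀ r : X × Fin n, r ∉ B ×ˢ (Finset.univ : Finset (Fin n)) →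
      Mt ρ A r = Mt ρ' (push π A) r := by
    rintro ⟨x, j⟩ hr
    apply row_eq
    by_contra hcon
    apply hr
    rw [Finset.mem_product]
    exact ⟨Finset.mem_filter.2 ⟨Finset.mem_univ _, hcon⟩, Finset.mem_univ _⟩
  rw [hBc, K_eq, K_eq, ← hcard]
  exact ⟨ker_le _ _ _ fun r hr => (hrow r hr).symm, ker_le _ _ _ hrow⟩

end fin

/-! ### the group side -/

section grp
variable {Γ : Type} [Group Γ] {m n : ℕ}

/-- complex coefficients -/
def cpl {W : Type} (A : Matrix (Fin m) (Fin n) (W →₀ ℤ)) : Matrix (Fin m) (Fin n) (W →₀ ℂ) :=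
  fun i j => (A i j).mapRange (fun z : ℤ => (z : ℂ)) Int.cast_zero

theorem cpl_sum {W : Type} (A : Matrix (Fin m) (Fin n) (W →₀ ℤ)) (i : Fin m) (j : Fin n)
    (f : W → ℂ) : (cpl A i j).sum (fun w c => f w * c) = (A i j).sum fun w c => (c : ℂ) * f w := by
  unfold cpl
  rw [Finsupp.sum_mapRange_index]
  · refine Finsupp.sum_congr fun w _ => ?_
    ring
  · intro w
    ring

/-- the rows of the relations -/
def rw' (B : Matrix (Fin m) (Fin n) (Γ →₀ ℤ)) (q : Fin n) : Γ × Fin m →₀ ℤ :=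
  ∑ l, (B l q).mapDomain fun h => (h⁻¹, l)

theorem rw_sum {M : Type} [AddCommGroup M] (B : Matrix (Fin m) (Fin n) (Γ →₀ ℤ)) (q : Fin n)
    (f : Γ × Fin m → ℤ → M) (hf0 : ∀ p, f p 0 = 0) (hf : ∀ p a b, f p (a + b) = f p a + f p b) :
    (rw' B q).sum f = ∑ l, (B l q).sum fun h c => f (h⁻¹, l) c := by
  unfold rw'
  rw [← Finsupp.sum_finsetSum_index hf0 hf]
  refine Finset.sum_congr rfl fun l _ => ?_
  rw [Finsupp.sum_mapDomain_index]
  · exact fun b => hf0 _
  · exact fun b => hf _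

/-- the exchange of the coordinates -/
def sw {I : Type} (F : EE Γ I) : lp (fun _ : I × Γ => ℂ) 2 :=
  ⟨fun p => F (p.2, p.1), by
    have h1 := (memℓp_gen_iff (by norm_num : 0 < (2 : ℝ≥0∞).toReal)).1 F.2
    exact (memℓp_gen_iff (by norm_num : 0 < (2 : ℝ≥0∞).toReal)).2
      ((Equiv.prodComm I Γ).summable_iff.2 h1)⟩

theorem sw_apply {I : Type} (F : EE Γ I) (p : I × Γ) : sw F p = F (p.2, p.1) := rfl

theorem norm_sw {I : Type} (F : EE Γ I) : ‖sw F‖ = ‖F‖ := by
  rw [lp.norm_eq_tsum_rpow (by norm_num), lp.norm_eq_tsum_rpow (by norm_num)]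
  congr 1
  exact (Equiv.prodComm I Γ).tsum_eq (fun x => ‖F x‖ ^ (2 : ℝ≥0∞).toReal)

theorem isometry_sw {I : Type} : Isometry (sw (Γ := Γ) (I := I)) := by
  refine Isometry.of_dist_eq fun F F' => ?_
  rw [dist_eq_norm, dist_eq_norm, ← norm_sw (F - F')]
  rfl

theorem sw_surj {I : Type} (x : lp (fun _ : I × Γ => ℂ) 2) : ∃ F : EE Γ I, sw F = x := by
  refine ⟨⟨fun p => x (p.2, p.1), ?_⟩, ?_⟩
  · have h1 := (memℓp_gen_iff (by norm_num : 0 < (2 : ℝ≥0∞).toReal)).1 x.2
    exact (memℓp_gen_iff (by norm_num : 0 < (2 : ℝ≥0∞).toReal)).2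
      ((Equiv.prodComm Γ I).summable_iff.2 h1)
  · apply lp.ext
    rfl

theorem inner_embZ (v : Γ × Fin m →₀ ℤ) (F : EE Γ (Fin m)) :
    ⟪(embZ v : EE Γ (Fin m)), F⟫_ℂ = v.sum fun p c => (c : ℂ) * F p := by
  classical
  induction v using Finsupp.induction_linear with
  | zero => simp
  | add f g hf hg =>
    rw [map_add, inner_add_left, hf, hg, Finsupp.sum_add_index]
    · intro a _
      simp
    · intro a _ b c
      push_cast
      ring
  | single p z =>
    rw [embZ_single, Finsupp.sum_single_index (by simp), ← Int.cast_smul_eq_zsmul ℂ,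
      inner_smul_left, Pool.Agent.H919R3.L2.inner_dl_left]
    simp

theorem mem_kr_iff (B : Matrix (Fin m) (Fin n) (Γ →₀ ℤ)) (F : EE Γ (Fin m)) :
    F ∈ Pool.Agent.V11111.MD.kr (ContinuousLinearMap.adjoint (Op (HM (rw' B)))) ↔
      sw F ∈ Pool.Agent.W656.VA.kernelSet (cpl B) := by
  rw [Pool.Agent.V11111.MD.mem_kr]
  have key : ∀ (q : Fin n) (k : Γ),
      (ContinuousLinearMap.adjoint (Op (HM (rw' B))) F) (k, q) =
        ∑ l, (cpl B l q).sum (fun h c => sw F (l, k * h⁻¹) * c) := by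
    intro q k
    rw [← Pool.Agent.H919R3.L2.inner_dl_left, ContinuousLinearMap.adjoint_inner_right, Op_HM,
      inner_embZ, shift, Finsupp.lmapDomain_apply, Finsupp.sum_mapDomain_index, rw_sum]
    · refine Finset.sum_congr rfl fun l _ => ?_
      rw [cpl_sum]
      rfl
    · intro p
      simp
    · intro p a b
      push_cast
      ring
    · intro p
      simp
    · intro p a b
      push_cast
      ring
  constructor
  · intro h q k
    rw [← key, h]
    rfl
  · intro h
    apply lp.ext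
    funext ⟨k, q⟩
    rw [key]
    exact h q k

/-- the von Neumann dimension in the two formats -/
theorem nu_eq (B : Matrix (Fin m) (Fin n) (Γ →₀ ℤ)) :
    nu (ContinuousLinearMap.adjoint (Op (HM (rw' B)))) = Pool.Agent.W656.VA.kerDim (cpl B) := by
  classical
  unfold nu Pool.Agent.W656.VA.kerDim
  refine Finset.sum_congr rfl fun i _ => ?_
  set N := ContinuousLinearMap.adjoint (Op (HM (rw' B))) with hN
  set S := Pool.Agent.V11111.MD.kr N with hS
  have h1 : (lp.single 2 (i, (1 : Γ)) (1 : ℂ) : lp (fun _ : Fin m × Γ => ℂ) 2) =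
      sw (dl ((1 : Γ), i)) := by
    apply lp.ext
    funext p
    rw [sw_apply, lp.single_apply]
    by_cases hp : p = (i, 1)
    · rw [hp]
      simp only [Pi.single_eq_same]
      exact (Pool.Agent.H919R3.L2.dl_apply_self _).symm
    · have hp2 : (p.2, p.1) ≠ ((1 : Γ), i) := by
        intro h
        exact hp (Prod.ext (Prod.ext_iff.1 h).2 (Prod.ext_iff.1 h).1)
      rw [Pi.single_eq_of_ne hp]
      exact (Pool.Agent.H919R3.L2.dl_apply_ne _ _ hp2).symm
  have h2 : Pool.Agent.W656.VA.kernelSet (cpl B) = sw '' (S : Set (EE Γ (Fin m))) := by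
    ext x
    constructor
    · intro hx
      obtain ⟨F, rfl⟩ := sw_surj x
      exact ⟨F, (mem_kr_iff B F).2 hx, rfl⟩
    · rintro ⟨F, hF, rfl⟩
      exact (mem_kr_iff B F).1 hF
  have h3 : Metric.infDist (dl ((1 : Γ), i)) (S : Set (EE Γ (Fin m))) =
      ‖dl ((1 : Γ), i) - S.starProjection (dl ((1 : Γ), i))‖ := by
    rw [Metric.infDist_eq_iInf]
    have h4 := Submodule.starProjection_minimal (U := S) (dl ((1 : Γ), i))
    rw [h4]
    refine iInf_congr fun y => ?_
    rw [dist_eq_norm]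
  have h5 : ‖(dl ((1 : Γ), i) : EE Γ (Fin m))‖ ^ 2 = ‖S.starProjection (dl ((1 : Γ), i))‖ ^ 2 +
      ‖dl ((1 : Γ), i) - S.starProjection (dl ((1 : Γ), i))‖ ^ 2 := by
    have h6 := Pool.Agent.V11111.MD.QQ_decomp N 1 0 (dl ((1 : Γ), i))
    simpa using h6
  rw [Pool.Agent.H919R3.L2.norm_dl] at h5
  have h7 : Metric.infDist (lp.single 2 (i, (1 : Γ)) (1 : ℂ) : lp (fun _ : Fin m × Γ => ℂ) 2)
      (Pool.Agent.W656.VA.kernelSet (cpl B)) =
      ‖dl ((1 : Γ), i) - S.starProjection (dl ((1 : Γ), i))‖ := by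
    rw [h1, h2, Metric.infDist_image isometry_sw, h3]
  rw [h7]
  linarith

/-- the set of the group elements in the relations -/
def gset [DecidableEq Γ] (B : Matrix (Fin m) (Fin n) (Γ →₀ ℤ)) : Finset Γ :=
  Finset.univ.biUnion fun q => (rw' B q).support.image Prod.fst

theorem K_Rm [DecidableEq Γ] (B : Matrix (Fin m) (Fin n) (Γ →₀ ℤ)) {X : Type} [Fintype X]
    [DecidableEq X] (σ : Γ → Equiv.Perm X) :
    K (fun g x => σ g x) B = LinearMap.ker (Rm (gset B) (fun q g l => rw' B q (g, l))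
      (fun g => σ g⁻¹)).mulVecLin := by
  have key : ∀ (v : X × Fin m → ℝ) (x : X) (q : Fin n),
      ((Rm (gset B) (fun q g l => rw' B q (g, l)) (fun g => σ g⁻¹)).mulVec v) (x, q) =
        ∑ i, (B i q).sum (fun w c => (c : ℝ) * v (σ w x, i)) := by
    intro v x q
    rw [Rm_mulVec]
    have h1 : (rw' B q).sum (fun p c => (c : ℝ) * v (σ p.1⁻¹ x, p.2)) =
        ∑ i, (B i q).sum (fun w c => (c : ℝ) * v (σ w x, i)) := by
      rw [rw_sum]
      · refine Finset.sum_congr rfl fun l _ => ?_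
        refine Finsupp.sum_congr fun w _ => ?_
        simp
      · intro p
        simp
      · intro p a b
        push_cast
        ring
    rw [← h1, Finsupp.sum]
    rw [← Finset.sum_product' (f := fun g l => ((rw' B q (g, l) : ℤ) : ℝ) * v (σ g⁻¹ x, l))]
    symm
    apply Finset.sum_subset
    · intro p hp
      rw [Finset.mem_product]
      refine ⟨?_, Finset.mem_univ _⟩
      unfold gset
      rw [Finset.mem_biUnion]
      exact ⟨q, Finset.mem_univ _, Finset.mem_image_of_mem _ hp⟩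
    · intro p _ hp
      rw [Finsupp.notMem_support_iff.1 hp]
      simp
  ext v
  rw [LinearMap.mem_ker, Matrix.mulVecLin_apply]
  constructor
  · intro h
    funext ⟨x, q⟩
    rw [key]
    exact h x q
  · intro h x q
    rw [← key, h]
    rfl

/-- **The approximation theorem** along a sofic approximation. -/
theorem luck (S : Sofic Γ) (B : Matrix (Fin m) (Fin n) (Γ →₀ ℤ)) :
    Tendsto (fun i => (Module.finrank ℝ (K (fun g x => S.σ i g x) B) : ℝ) / S.d i) atTop
      (𝓝 (Pool.Agent.W656.VA.kerDim (cpl B))) := by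
  classical
  set G := gset B with hG
  set c : Fin n → Γ → Fin m → ℤ := fun q g l => rw' B q (g, l) with hc
  have hGs : ∀ q, ∀ p ∈ (rw' B q).support, p.1 ∈ G := by
    intro q p hp
    rw [hG]
    unfold gset
    rw [Finset.mem_biUnion]
    exact ⟨q, Finset.mem_univ _, Finset.mem_image_of_mem _ hp⟩
  have hge := beta_ge G c (rw' B) (fun _ _ _ => rfl) hGs
  have hlim := beta_lim G c (rw' B) (fun _ _ _ => rfl) hGs
  rw [← nu_eq]
  set ν := nu (ContinuousLinearMap.adjoint (Op (HM (rw' B)))) with hν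
  rw [Metric.tendsto_atTop]
  intro η hη
  have h1 := ker_lower S G c ν hge (η / 2) (by positivity)
  obtain ⟨n₀, hn₀⟩ := (hlim.eventually (gt_mem_nhds (show ν < ν + η / 2 by linarith))).exists
  obtain ⟨ε, hε, h2⟩ := small_upper S G c n₀ (ν + η / 2) hn₀
  obtain ⟨i₀, h3⟩ := eventually_atTop.1 (h1.and (h2.and S.d_pos))
  refine ⟨i₀, fun i hi => ?_⟩
  obtain ⟨h4, h5, h6⟩ := h3 i hi
  have hd : (0 : ℝ) < S.d i := by exact_mod_cast h6
  have h7 : K (fun g x => S.σ i g x) B = LinearMap.ker (Rm G c (S.tau i)).mulVecLin :=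
    K_Rm B (S.σ i)
  have h8 : (Module.finrank ℝ (LinearMap.ker (Rm G c (S.tau i)).mulVecLin) : ℝ) ≤
      Fintype.card {p // (Sd G c (S.tau i)).ev p ≤ ε} := by
    rw [← (Sd G c (S.tau i)).card_zero]
    exact_mod_cast Fintype.card_subtype_mono _ _ fun p hp => by
      have hp' : (Sd G c (S.tau i)).ev p = 0 := hp
      show (Sd G c (S.tau i)).ev p ≤ ε
      rw [hp']
      exact hε.le
  rw [h7, Real.dist_eq, abs_lt]
  constructor
  · rw [lt_sub_iff_add_lt, lt_div_iff₀ hd]
    nlinarith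
  · rw [sub_lt_iff_lt_add, div_lt_iff₀ hd]
    nlinarith

end grp

end Pool.Agent.H13.SF
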