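import Pool.Agent.H13.AA.Cl

/-!
Embeddings of finitely generated groups in groups with two generators, inside a class of groups.
-/

set_option autoImplicit false
set_option linter.unusedSectionVars false

open scoped commutatorElement

namespace Pool.Agent.H13.SF

open Pool.Agent.TH25.AD (Wr)
open Pool.Agent.H13.AA (Ws Cl)

section ws
variable {L : Type} [Group L]

theorem wk (a b : Ws L) (i : ℤ) : (a * b).1.k i = a.1.k i * b.1.k (i - a.1.n) := rfl
theorem wn (a b : Ws L) : (a * b).1.n = a.1.n + b.1.n := rfl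
theorem wik (a : Ws L) (i : ℤ) : (a⁻¹).1.k i = (a.1.k (i + a.1.n))⁻¹ := rfl
theorem win (a : Ws L) : (a⁻¹).1.n = -a.1.n := rfl

theorem wext {a b : Ws L} (h1 : ∀ i, a.1.k i = b.1.k i) (h2 : a.1.n = b.1.n) : a = b :=
  Subtype.ext (Wr.ext (funext h1) h2)

/-- the shift by `n` -/
def sh (L : Type) [Group L] (n : ℤ) : Ws L :=
  ⟨⟨fun _ => 1, n⟩, (Set.finite_singleton (1 : L)).subset (by rintro _ ⟨i, rfl⟩; exact rfl)⟩

/-- a function -/
def fn (f : ℤ → L) (hf : (Set.range f).Finite) : Ws L := ⟨⟨f, 0⟩, hf⟩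

theorem sh_add (m n : ℤ) : sh L m * sh L n = sh L (m + n) := by
  apply wext
  · intro i
    rw [wk]
    exact one_mul _
  · rfl

theorem sh_zero : sh L 0 = 1 := rfl

theorem sh_neg (n : ℤ) : (sh L n)⁻¹ = sh L (-n) := by
  rw [inv_eq_iff_mul_eq_one, sh_add, add_neg_cancel, sh_zero]

theorem sh_zpow (n : ℤ) : (sh L 1) ^ n = sh L n := by
  induction n using Int.induction_on with
  | zero => rfl
  | succ n ih => rw [zpow_add_one, ih, sh_add]
  | pred n ih => rw [zpow_sub_one, ih, sh_neg, sh_add]; rfl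

theorem range_shift {f : ℤ → L} (hf : (Set.range f).Finite) (s : ℤ) :
    (Set.range fun x => f (x - s)).Finite :=
  hf.subset (by rintro _ ⟨i, rfl⟩; exact ⟨i - s, rfl⟩)

theorem conj_fn (f : ℤ → L) (hf : (Set.range f).Finite) (s : ℤ) :
    sh L s * fn f hf * (sh L s)⁻¹ = fn (fun x => f (x - s)) (range_shift hf s) := by
  apply wext
  · intro i
    rw [wk, wk, wik]
    show 1 * f (i - s) * (1 : L)⁻¹ = f (i - s)
    rw [one_mul, inv_one, mul_one]
  · rw [wn, wn, win]
    show s + 0 + -s = 0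
    ring

/-- the lamp at the place `i` -/
def lamp (i : ℤ) : L →* Ws L where
  toFun x := ⟨⟨fun j => if j = i then x else 1, 0⟩, by
    refine ((Set.finite_singleton x).insert 1).subset ?_
    rintro _ ⟨j, rfl⟩
    dsimp only
    split_ifs
    · right; rfl
    · left; rfl⟩
  map_one' := by
    apply wext
    · intro j
      show (if j = i then (1 : L) else 1) = 1
      split_ifs <;> rfl
    · rfl
  map_mul' x y := by
    apply wext
    · intro j
      rw [wk]
      show (if j = i then x * y else 1) = (if j = i then x else 1) * (if j - 0 = i then y else 1)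
      rw [sub_zero]
      split_ifs
      · rfl
      · rw [one_mul]
    · rfl

theorem lamp_injective (i : ℤ) : Function.Injective (lamp (L := L) i) := by
  intro x y h
  have h1 : (lamp (L := L) i x).1.k i = (lamp (L := L) i y).1.k i := by rw [h]
  change (if i = i then x else 1) = (if i = i then y else 1) at h1
  rwa [if_pos rfl, if_pos rfl] at h1

theorem conj_lamp (i s : ℤ) (x : L) : sh L s * lamp i x * (sh L s)⁻¹ = lamp (i + s) x := by
  apply wext
  · intro j
    rw [wk, wk, wik]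
    show 1 * (if j - s = i then x else 1) * (1 : L)⁻¹ = if j = i + s then x else 1
    rw [one_mul, inv_one, mul_one]
    by_cases h : j = i + s
    · rw [if_pos h, if_pos (by omega)]
    · rw [if_neg h, if_neg (by omega)]
  · rw [wn, wn, win]
    show s + 0 + -s = 0
    ring

open Classical in
/-- the half line -/
noncomputable def half (x : L) : Ws L :=
  fn (fun i => if 0 ≤ i then x else 1) (by
    refine ((Set.finite_singleton x).insert 1).subset ?_
    rintro _ ⟨j, rfl⟩
    dsimp only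
    split_ifs
    · right; rfl
    · left; rfl)

theorem comm_fn (f g : ℤ → L) (hf : (Set.range f).Finite) (hg : (Set.range g).Finite) (i : ℤ) :
    (⁅fn f hf, fn g hg⁆).1.k i = ⁅f i, g i⁆ ∧ (⁅fn f hf, fn g hg⁆).1.n = 0 := by
  constructor
  · rw [commutatorElement_def, commutatorElement_def, wk, wk, wk, wik, wik]
    show f i * g (i - 0) * (f (i - (0 + 0) + 0))⁻¹ * (g (i - (0 + 0 + -0) + 0))⁻¹ = _
    simp
  · rfl

theorem comm_half (x : L) : ⁅half x, sh L 1⁆ = lamp 0 x := by
  have e : ⁅half x, sh L 1⁆ = half x * (sh L 1 * half x * (sh L 1)⁻¹)⁻¹ := by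
    rw [commutatorElement_def]
    group
  rw [e]
  unfold half
  rw [conj_fn]
  apply wext
  · intro i
    rw [wk, wik]
    show (if 0 ≤ i then x else 1) * (if 0 ≤ i - 0 + 0 - 1 then x else 1)⁻¹ =
      if i = 0 then x else 1
    by_cases h : i = 0
    · subst h
      simp
    · rw [if_neg h]
      by_cases h1 : 0 ≤ i
      · rw [if_pos h1, if_pos (by omega), mul_inv_cancel]
      · rw [if_neg h1, if_neg (by omega), inv_one, mul_one]
  · rfl

/-! ### the positions -/

theorem pos_unique {a b i : ℕ} (hi : 1 ≤ i) (h : (2 : ℤ) ^ a - (2 ^ i - 1) = 2 ^ b) : a = i := by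
  have hb : b = 0 := by
    by_contra hb
    obtain ⟨b', rfl⟩ := Nat.exists_eq_succ_of_ne_zero hb
    obtain ⟨i', rfl⟩ := Nat.exists_eq_succ_of_ne_zero (by omega : i ≠ 0)
    have hb0 : (0 : ℤ) < 2 ^ b' := by positivity
    have hi0 : (0 : ℤ) < 2 ^ i' := by positivity
    rw [pow_succ, pow_succ] at h
    rcases Nat.eq_zero_or_pos a with ha | ha
    · subst ha
      rw [pow_zero] at h
      linarith
    · obtain ⟨a', rfl⟩ := Nat.exists_eq_succ_of_ne_zero (by omega : a ≠ 0)
      rw [pow_succ] at h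
      omega
  subst hb
  rw [pow_zero] at h
  have h1 : (2 : ℤ) ^ a = 2 ^ i := by linarith
  exact Nat.pow_right_injective le_rfl (by exact_mod_cast h1)

open Classical in
/-- the function with the value `g i` at `2 ^ i`, `i ≤ k` -/
noncomputable def spread (g : ℕ → L) (k : ℕ) (x : ℤ) : L :=
  if h : ∃ i : ℕ, i ≤ k ∧ x = 2 ^ i then g h.choose else 1

theorem spread_pow (g : ℕ → L) (k i : ℕ) (hi : i ≤ k) : spread g k (2 ^ i) = g i := by
  have h : ∃ j : ℕ, j ≤ k ∧ ((2 : ℤ) ^ i) = 2 ^ j := ⟨i, hi, rfl⟩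
  unfold spread
  rw [dif_pos h]
  have h1 := h.choose_spec.2
  have h2 : i = h.choose := Nat.pow_right_injective le_rfl (by exact_mod_cast h1)
  exact congrArg g h2.symm

theorem spread_ne (g : ℕ → L) (k : ℕ) (x : ℤ) (h : ¬ ∃ i : ℕ, i ≤ k ∧ x = 2 ^ i) :
    spread g k x = 1 := dif_neg h

theorem spread_finite (g : ℕ → L) (k : ℕ) : (Set.range (spread g k)).Finite := by
  classical
  refine (((Finset.range (k + 1)).image g).finite_toSet.insert 1).subset ?_
  rintro _ ⟨x, rfl⟩
  by_cases h : ∃ i : ℕ, i ≤ k ∧ x = 2 ^ i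
  · obtain ⟨i, hi, rfl⟩ := h
    right
    rw [spread_pow g k i hi]
    exact Finset.mem_coe.2 (Finset.mem_image_of_mem g (Finset.mem_range.2 (by omega)))
  · left
    exact spread_ne g k x h

/-- the commutators -/
theorem comm_spread (g : ℕ → L) (k i : ℕ) (h1 : 1 ≤ i) (hi : i ≤ k) :
    ⁅fn (spread g k) (spread_finite g k), sh L (2 ^ i - 1) * fn (spread g k) (spread_finite g k) *
      (sh L (2 ^ i - 1))⁻¹⁆ = lamp (2 ^ i) ⁅g i, g 0⁆ := by
  rw [conj_fn]
  apply wext
  · intro x
    rw [(comm_fn _ _ _ _ x).1]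
    show _ = if x = 2 ^ i then ⁅g i, g 0⁆ else 1
    by_cases hx : x = 2 ^ i
    · subst hx
      rw [if_pos rfl, spread_pow g k i hi]
      have e : (2 : ℤ) ^ i - (2 ^ i - 1) = 2 ^ 0 := by ring
      rw [e, spread_pow g k 0 (Nat.zero_le _)]
    · rw [if_neg hx]
      by_cases h2 : ∃ a : ℕ, a ≤ k ∧ x = 2 ^ a
      · by_cases h3 : ∃ b : ℕ, b ≤ k ∧ x - (2 ^ i - 1) = 2 ^ b
        · obtain ⟨a, _, rfl⟩ := h2
          obtain ⟨b, _, hb⟩ := h3
          exact absurd (by rw [pos_unique h1 hb]) hx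
        · rw [spread_ne g k _ h3, commutatorElement_one_right]
      · rw [spread_ne g k _ h2, commutatorElement_one_left]
  · rfl

end ws

/-- **Two generators.** -/
theorem two_gen {C : (G : Type) → [Group G] → Prop} (hC : Cl C) {L : Type} [Group L] (hL : C L)
    (hfg : Group.FG L) : ∃ (E : Type) (_ : Group E), C E ∧
      (∃ π : FreeGroup (Fin 2) →* E, Function.Surjective π) ∧
      ∃ ψ : L →* E, Function.Injective ψ := by
  classical
  obtain ⟨S, hS⟩ := hfg.out
  obtain ⟨n, ⟨e⟩⟩ := Finite.exists_equiv_fin S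
  let h : ℕ → L := fun i => if hi : i < n then (e.symm ⟨i, hi⟩ : L) else 1
  have hh : ∀ x ∈ S, ∃ i, i < n ∧ h i = x := by
    intro x hx
    refine ⟨(e ⟨x, hx⟩).1, (e ⟨x, hx⟩).2, ?_⟩
    simp [h]
  let g : ℕ → Ws L := fun i => if i = 0 then sh L 1 else half (h (i - 1))
  let a : Ws (Ws L) := fn (spread g n) (spread_finite g n)
  let b : Ws (Ws L) := sh (Ws L) 1
  let F : FreeGroup (Fin 2) →* Ws (Ws L) := FreeGroup.lift ![a, b]
  have ha : a ∈ F.range := ⟨FreeGroup.of 0, by rw [FreeGroup.lift_apply_of]; rfl⟩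
  have hb : b ∈ F.range := ⟨FreeGroup.of 1, by rw [FreeGroup.lift_apply_of]; rfl⟩
  have hs : ∀ m : ℤ, sh (Ws L) m ∈ F.range := by
    intro m
    rw [← sh_zpow]
    exact F.range.zpow_mem hb m
  let ψ : L →* Ws (Ws L) := (lamp 0).comp (lamp 0)
  have hψ : ∀ x ∈ S, ψ x ∈ F.range := by
    intro x hx
    obtain ⟨i, hi, rfl⟩ := hh x hx
    have h1 := comm_spread g n (i + 1) (by omega) (by omega)
    have h2 : ⁅g (i + 1), g 0⁆ = lamp 0 (h i) := by
      have e1 : g (i + 1) = half (h i) := by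
        show (if i + 1 = 0 then sh L 1 else half (h (i + 1 - 1))) = _
        rw [if_neg (by omega), Nat.add_sub_cancel]
      have e2 : g 0 = sh L 1 := if_pos rfl
      rw [e1, e2, comm_half]
    rw [h2] at h1
    have h3 : lamp (2 ^ (i + 1)) (lamp 0 (h i)) ∈ F.range := by
      rw [← h1, commutatorElement_def]
      have h4 : sh (Ws L) (2 ^ (i + 1) - 1) * a * (sh (Ws L) (2 ^ (i + 1) - 1))⁻¹ ∈ F.range :=
        F.range.mul_mem (F.range.mul_mem (hs _) ha) (F.range.inv_mem (hs _))
      exact F.range.mul_mem (F.range.mul_mem (F.range.mul_mem ha h4) (F.range.inv_mem ha))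
        (F.range.inv_mem h4)
    have h5 := conj_lamp (L := Ws L) (2 ^ (i + 1)) (-(2 ^ (i + 1))) (lamp 0 (h i))
    rw [add_neg_cancel] at h5
    show lamp 0 (lamp 0 (h i)) ∈ F.range
    rw [← h5]
    exact F.range.mul_mem (F.range.mul_mem (hs _) h3) (F.range.inv_mem (hs _))
  have hψ' : ∀ x, ψ x ∈ F.range := by
    intro x
    have hx : x ∈ Subgroup.closure (S : Set L) := by rw [hS]; trivial
    induction hx using Subgroup.closure_induction with
    | mem y hy => exact hψ y hy
    | one => rw [map_one]; exact F.range.one_mem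
    | mul y z _ _ hy hz => rw [map_mul]; exact F.range.mul_mem hy hz
    | inv y _ hy => rw [map_inv]; exact F.range.inv_mem hy
  refine ⟨F.range, inferInstance, ?_, ⟨F.rangeRestrict, F.rangeRestrict_surjective⟩,
    ψ.codRestrict F.range hψ', ?_⟩
  · exact hC.sub _ _ F.range.subtype F.range.subtype_injective (hC.ws (hC.ws hL))
  · intro x y hxy
    have h1 : ψ x = ψ y := congrArg Subtype.val hxy
    exact lamp_injective 0 (lamp_injective 0 h1)

end Pool.Agent.H13.SF
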